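import Mathlib

set_option autoImplicit false

namespace Pool.Agent.Helper148.PM

open scoped Topology
open Filter

universe u v w

noncomputable section

/-- A continuous map `f` from `U` to a topological vector space `E` is holomorphic if it has a
complex derivative (the limit in `E` of the difference quotients) at every point of `U`. -/
def IsHolo {U : Set ℂ} {E : Type*} [AddCommGroup E] [Module ℂ E] [TopologicalSpace E]
    (f : C(U, E)) : Prop :=
  ∀ z : U, ∃ d : E, Tendsto (fun y : U => ((y : ℂ) - z)⁻¹ • (f y - f z)) (𝓝[≠] z) (𝓝 d)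

section Closure

variable {U : Set ℂ} {E : Type*} [AddCommGroup E] [Module ℂ E] [TopologicalSpace E]
  [IsTopologicalAddGroup E] [ContinuousSMul ℂ E]

omit [ContinuousSMul ℂ E] in
lemma IsHolo.add {f g : C(U, E)} (hf : IsHolo f) (hg : IsHolo g) : IsHolo (f + g) := by
  intro z
  obtain ⟨d, hd⟩ := hf z
  obtain ⟨d', hd'⟩ := hg z
  refine ⟨d + d', (hd.add hd').congr fun y => ?_⟩
  rw [← smul_add, ContinuousMap.add_apply, ContinuousMap.add_apply]
  congr 1
  abel

omit [IsTopologicalAddGroup E] [ContinuousSMul ℂ E] in
lemma IsHolo.const (e : E) : IsHolo (ContinuousMap.const U e) := by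
  intro z
  refine ⟨0, tendsto_const_nhds.congr fun y => ?_⟩
  simp

lemma IsHolo.smul' {h : C(U, ℂ)} {f : C(U, E)} (hh : IsHolo h) (hf : IsHolo f) :
    IsHolo (h • f) := by
  intro z
  obtain ⟨d, hd⟩ := hf z
  obtain ⟨c, hc⟩ := hh z
  have h1 : Tendsto (fun y : U => h y) (𝓝[≠] z) (𝓝 (h z)) :=
    h.continuous.continuousAt.tendsto.mono_left nhdsWithin_le_nhds
  refine ⟨h z • d + c • f z, ((h1.smul hd).add (hc.smul_const (f z))).congr fun y => ?_⟩
  simp only [ContinuousMap.smul_apply', smul_sub, smul_smul, smul_eq_mul]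
  rw [mul_comm (h y), mul_sub, sub_smul]
  abel

end Closure

/-- The algebra `O(U)` of holomorphic functions on `U`, with the compact-open topology (uniform
convergence on compact subsets). -/
def OO (U : Set ℂ) : Subalgebra ℂ C(U, ℂ) where
  carrier := {f | IsHolo f}
  mul_mem' {f g} hf hg := by
    have : f * g = f • g := rfl
    rw [this]
    exact IsHolo.smul' hf hg
  add_mem' {f g} hf hg := IsHolo.add hf hg
  algebraMap_mem' c := IsHolo.const c

/-- The space `O(U, E)` of holomorphic maps from `U` to `E`, with the compact-open topology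
(uniform convergence on compact subsets). -/
def Hol (U : Set ℂ) (E : Type*) [AddCommGroup E] [Module ℂ E] [TopologicalSpace E]
    [IsTopologicalAddGroup E] [ContinuousSMul ℂ E] : Submodule ℂ C(U, E) where
  carrier := {f | IsHolo f}
  add_mem' {f g} hf hg := IsHolo.add hf hg
  zero_mem' := IsHolo.const 0
  smul_mem' c f hf := by
    have : c • f = (ContinuousMap.const U c : C(U, ℂ)) • f := rfl
    rw [this]
    exact IsHolo.smul' (IsHolo.const c) hf

section ModuleInst

variable {U : Set ℂ} {E : Type*} [AddCommGroup E] [Module ℂ E] [TopologicalSpace E]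
  [IsTopologicalAddGroup E] [ContinuousSMul ℂ E]

/-- The pointwise action of `O(U)` on `O(U, E)`: `(h f)(z) = h(z) f(z)`. -/
instance : Module (OO U) (Hol U E) where
  smul h f := ⟨(h : C(U, ℂ)) • (f : C(U, E)), IsHolo.smul' h.2 f.2⟩
  one_smul f := Subtype.ext (one_smul C(U, ℂ) (f : C(U, E)))
  mul_smul h k f := Subtype.ext (mul_smul (h : C(U, ℂ)) (k : C(U, ℂ)) (f : C(U, E)))
  smul_zero h := Subtype.ext (smul_zero (h : C(U, ℂ)))
  smul_add h f g := Subtype.ext (smul_add (h : C(U, ℂ)) (f : C(U, E)) (g : C(U, E)))
  add_smul h k f := Subtype.ext (add_smul (h : C(U, ℂ)) (k : C(U, ℂ)) (f : C(U, E)))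
  zero_smul f := Subtype.ext (zero_smul C(U, ℂ) (f : C(U, E)))

lemma Hol.coe_smul (h : OO U) (f : Hol U E) (z : U) :
    ((h • f : Hol U E) : C(U, E)) z = (h : C(U, ℂ)) z • (f : C(U, E)) z := rfl

instance : IsScalarTower ℂ (OO U) (Hol U E) where
  smul_assoc c h f := by
    apply Subtype.ext
    ext z
    exact smul_assoc c ((h : C(U, ℂ)) z) ((f : C(U, E)) z)

end ModuleInst

/-- A polynormed space: a complete Hausdorff locally convex complex topological vector space. -/
class IsPolynormedSpace (E : Type*) [AddCommGroup E] [Module ℂ E] [UniformSpace E] : Prop extends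
  IsUniformAddGroup E, ContinuousSMul ℂ E, LocallyConvexSpace ℝ E, T2Space E, CompleteSpace E

/-- A polynormed `O(U)`-module: a polynormed space with a unital `O(U)`-module structure,
compatible with the complex vector space structure, whose action `O(U) × X → X` is jointly
continuous. -/
class IsPolynormedModule (U : Set ℂ) (X : Type*) [AddCommGroup X] [Module ℂ X] [UniformSpace X]
    [Module (OO U) X] : Prop extends IsPolynormedSpace X, IsScalarTower ℂ (OO U) X where
  jointly_continuous : ContinuousSMul (OO U) X

attribute [instance] IsPolynormedModule.jointly_continuous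

/-- Projectivity in the sense of topological homology: every morphism `φ : Y → X` of polynormed
`O(U)`-modules with a continuous linear right inverse `ρ` has a right inverse `σ` which is a
morphism (a continuous `O(U)`-linear map). -/
def IsProjectiveModule (U : Set ℂ) (X : Type u) [AddCommGroup X] [Module ℂ X] [UniformSpace X]
    [Module (OO U) X] : Prop :=
  ∀ (Y : Type v) [AddCommGroup Y] [Module ℂ Y] [UniformSpace Y] [Module (OO U) Y]
    [IsPolynormedModule U Y] (φ : Y →L[OO U] X) (ρ : X →L[ℂ] Y), (∀ x, φ (ρ x) = x) →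
    ∃ σ : X →L[OO U] Y, ∀ x, φ (σ x) = x

/-- A free module: topologically isomorphic, as an `O(U)`-module, to `O(U, E)` for some polynormed
space `E`. -/
def IsFreeModule (U : Set ℂ) (X : Type u) [AddCommGroup X] [UniformSpace X]
    [Module (OO U) X] : Prop :=
  ∃ (E : Type w) (_ : AddCommGroup E) (_ : Module ℂ E) (_ : UniformSpace E)
    (_ : IsPolynormedSpace E), Nonempty (X ≃L[OO U] Hol U E)

/-- Sanity check: `O(U, E)` itself is a free module. -/
lemma isFreeModule_hol (U : Set ℂ) (E : Type w) [AddCommGroup E] [Module ℂ E] [UniformSpace E]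
    [IsPolynormedSpace E] : IsFreeModule.{w, w} U (Hol U E) :=
  ⟨E, inferInstance, inferInstance, inferInstance, inferInstance,
    ⟨ContinuousLinearEquiv.refl (OO U) (Hol U E)⟩⟩

end

end Pool.Agent.Helper148.PM
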