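import Mathlib

set_option autoImplicit false

namespace Pool.Agent.Helper148.PM

open scoped ENNReal Topology Interval
open Filter Complex

noncomputable section

variable {B : Type*} [NormedAddCommGroup B] [NormedSpace ℂ B] [CompleteSpace B]

/-- The exponential exp(2 pi i n z). -/
def ee (n : ℤ) (z : ℂ) : ℂ := Complex.exp (2 * Real.pi * Complex.I * n * z)

lemma ee_diff (n : ℤ) : Differentiable ℂ (ee n) := by
  unfold ee; fun_prop

lemma ee_cont (n : ℤ) : Continuous (ee n) := (ee_diff n).continuous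

lemma ee_add (n : ℤ) (z w : ℂ) : ee n (z + w) = ee n z * ee n w := by
  unfold ee; rw [← Complex.exp_add]; ring_nf

lemma ee_mul (m n : ℤ) (z : ℂ) : ee m z * ee n z = ee (m + n) z := by
  unfold ee; rw [← Complex.exp_add]; push_cast; ring_nf

lemma ee_one (n : ℤ) : ee n 1 = 1 := by
  unfold ee
  have : (2 * Real.pi * Complex.I * n * 1 : ℂ) = n * (2 * Real.pi * Complex.I) := by ring
  rw [this, Complex.exp_int_mul_two_pi_mul_I]

lemma ee_zero (z : ℂ) : ee 0 z = 1 := by simp [ee]

lemma ee_norm (n : ℤ) (z : ℂ) : ‖ee n z‖ = Real.exp (-(2 * Real.pi * n * z.im)) := by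
  unfold ee
  rw [Complex.norm_exp]
  congr 1
  simp [Complex.mul_re, Complex.mul_im]

lemma ee_norm_le (n : ℤ) (z : ℂ) (R : ℝ) (hz : |z.im| ≤ R) :
    ‖ee n z‖ ≤ Real.exp (2 * Real.pi * R) ^ n.natAbs := by
  rw [ee_norm, ← Real.exp_nat_mul]
  apply Real.exp_le_exp.2
  have h1 : ((n.natAbs : ℕ) : ℝ) = |(n : ℝ)| := by rw [Nat.cast_natAbs, Int.cast_abs]
  rw [h1]
  have h2 : -((n : ℝ) * z.im) ≤ |(n:ℝ)| * |z.im| := by
    rw [← abs_mul]; exact neg_le_abs _
  have h3 : |(n:ℝ)| * |z.im| ≤ |(n:ℝ)| * R := by gcongr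
  nlinarith [Real.pi_pos]

/-- The Fourier coefficients of a one periodic function. -/
def cfn (g : ℂ → B) (n : ℤ) : B := ∫ x in (0:ℝ)..1, ee (-n) x • g x

omit [CompleteSpace B] in
lemma cfn_shift_mul (g : ℂ → B) (n : ℤ) :
    cfn (fun z => ee 1 z • g z) n = cfn g (n - 1) := by
  unfold cfn
  congr 1
  ext x
  rw [smul_smul, ee_mul]
  congr 2
  ring

lemma cfn_contour (g : ℂ → B) (hg : Differentiable ℂ g) (hp : ∀ z, g (z + 1) = g z) (n : ℤ) (y : ℝ) :
    cfn g n = ∫ x in (0:ℝ)..1, ee (-n) (x + y * Complex.I) • g (x + y * Complex.I) := by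
  have h := Complex.integral_boundary_rect_eq_zero_of_differentiableOn
    (fun z => ee (-n) z • g z) 0 (1 + y * Complex.I)
    (((ee_diff (-n)).smul hg).differentiableOn)
  have h1 : (1 + (y:ℂ) * Complex.I).re = 1 := by simp
  have h2 : (1 + (y:ℂ) * Complex.I).im = y := by simp
  rw [h1, h2] at h
  simp only [Complex.zero_re, Complex.zero_im, Complex.ofReal_zero, zero_mul, add_zero, zero_add,
    Complex.ofReal_one] at h
  have h3 : ∀ t : ℝ, ee (-n) (1 + t * Complex.I) • g (1 + t * Complex.I)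
      = ee (-n) (t * Complex.I) • g (t * Complex.I) := by
    intro t
    rw [add_comm (1:ℂ), ee_add, ee_one, mul_one, hp]
  simp_rw [h3] at h
  rw [add_sub_cancel_right, sub_eq_zero] at h
  exact h

lemma cfn_bound (g : ℂ → B) (hg : Differentiable ℂ g) (hp : ∀ z, g (z + 1) = g z)
    (R M : ℝ) (hR : 0 ≤ R)
    (hM : ∀ x y : ℝ, x ∈ Set.Icc (0:ℝ) 1 → |y| ≤ R → ‖g (x + y * Complex.I)‖ ≤ M) (n : ℤ) :
    ‖cfn g n‖ ≤ M * (Real.exp (-(2 * Real.pi * R))) ^ n.natAbs := by
  have h1 : ((n.natAbs : ℕ) : ℝ) = |(n : ℝ)| := by rw [Nat.cast_natAbs, Int.cast_abs]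
  obtain ⟨y, hy, hny⟩ : ∃ y : ℝ, |y| ≤ R ∧ (n:ℝ) * y = -(|(n:ℝ)| * R) := by
    rcases le_total 0 (n:ℝ) with h | h
    · exact ⟨-R, by rw [abs_neg, abs_of_nonneg hR], by rw [abs_of_nonneg h]; ring⟩
    · exact ⟨R, by rw [abs_of_nonneg hR], by rw [abs_of_nonpos h]; ring⟩
  rw [cfn_contour g hg hp n y]
  have h2 : ∀ x ∈ Set.uIoc (0:ℝ) 1, ‖ee (-n) (x + y * Complex.I) • g (x + y * Complex.I)‖
      ≤ M * (Real.exp (-(2 * Real.pi * R))) ^ n.natAbs := by
    intro x hx
    rw [Set.uIoc_of_le zero_le_one] at hx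
    have h3 := hM x y ⟨hx.1.le, hx.2⟩ hy
    have h4 : ‖ee (-n) (x + y * Complex.I)‖ = (Real.exp (-(2 * Real.pi * R))) ^ n.natAbs := by
      rw [ee_norm, ← Real.exp_nat_mul, h1]
      congr 1
      have : ((x:ℂ) + y * Complex.I).im = y := by simp
      rw [this]
      push_cast
      linear_combination (2 * Real.pi) * hny
    rw [norm_smul, h4, mul_comm]
    gcongr
  have h5 := intervalIntegral.norm_integral_le_of_norm_le_const h2
  simpa using h5

/-- Inversion for scalar functions. -/
lemma inversion_scalar (g : ℂ → ℂ) (hg : Differentiable ℂ g) (hp : ∀ z, g (z + 1) = g z)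
    (hs : ∀ z, Summable fun n : ℤ => ‖ee n z • cfn g n‖) (z : ℂ) :
    HasSum (fun n : ℤ => ee n z • cfn g n) (g z) := by
  have : Fact (0 < (1:ℝ)) := ⟨one_pos⟩
  set G : ℝ → ℂ := fun u => g (u + z.im * Complex.I) with hG
  have hGp : Function.Periodic G 1 := by
    intro u
    simp only [hG]
    rw [← hp (u + z.im * Complex.I)]
    congr 1
    push_cast
    ring
  have hGc : Continuous G := by
    have := hg.continuous
    fun_prop
  have hlift : Continuous (hGp.lift : AddCircle (1:ℝ) → ℂ) :=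
    continuous_coinduced_dom.mpr hGc
  let F : C(AddCircle (1:ℝ), ℂ) := ⟨hGp.lift, hlift⟩
  have hFc : ∀ n : ℤ, fourierCoeff F n • (fourier n ((z.re : ℝ) : AddCircle (1:ℝ)) : ℂ) = ee n z • cfn g n := by
    intro n
    have h1 : fourierCoeff F n = ∫ x in (0:ℝ)..1, ee (-n) x • g (x + z.im * Complex.I) := by
      rw [fourierCoeff_eq_intervalIntegral F n 0]
      simp only [zero_add, one_div, inv_one, one_smul]
      congr 1
      ext x
      rw [fourier_coe_apply]
      have h2 : F ((x:ℝ) : AddCircle (1:ℝ)) = g (x + z.im * Complex.I) := hGp.lift_coe x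
      rw [h2]
      unfold ee
      simp
    have h0 : (fourier n ((z.re : ℝ) : AddCircle (1:ℝ)) : ℂ) = ee n z.re := by
      rw [fourier_coe_apply]
      unfold ee
      simp
    rw [h1, cfn_contour g hg hp n z.im, h0]
    have h3 : ∀ x : ℝ, ee (-n) (x + z.im * Complex.I) • g (x + z.im * Complex.I)
        = ee (-n) (z.im * Complex.I) • (ee (-n) x • g (x + z.im * Complex.I)) := by
      intro x
      rw [ee_add, smul_smul, mul_comm]
    simp_rw [h3]
    rw [intervalIntegral.integral_smul]
    simp only [smul_eq_mul]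
    rw [← mul_assoc, mul_comm]
    congr 1
    have h4 : ee n z = ee n z.re * ee n (z.im * Complex.I) := by
      rw [← ee_add, Complex.re_add_im]
    rw [h4, mul_assoc, ee_mul, add_neg_cancel, ee_zero, mul_one]
  have hsum : Summable (fourierCoeff F) := by
    have h1 := hs z
    rw [← summable_norm_iff]
    refine h1.congr fun n => ?_
    rw [← hFc n, norm_smul, fourier_apply, Circle.norm_coe, mul_one]
  have := has_pointwise_sum_fourier_series_of_summable hsum ((z.re : ℝ) : AddCircle (1:ℝ))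
  have h5 : F ((z.re : ℝ) : AddCircle (1:ℝ)) = g z := by
    have : F ((z.re : ℝ) : AddCircle (1:ℝ)) = g (z.re + z.im * Complex.I) := hGp.lift_coe z.re
    rw [this, Complex.re_add_im]
  rw [h5] at this
  simp_rw [hFc] at this
  exact this

/-- Summability of the expansion. -/
lemma summable_norm_exp (g : ℂ → B) (hg : Differentiable ℂ g) (hp : ∀ z, g (z + 1) = g z) (z : ℂ) :
    Summable fun n : ℤ => ‖ee n z • cfn g n‖ := by
  set R : ℝ := |z.im| + 1 with hR
  have hR0 : 0 ≤ R := by positivity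
  have hc : IsCompact ((fun p : ℝ × ℝ => (p.1 : ℂ) + p.2 * Complex.I) ''
      (Set.Icc (0:ℝ) 1 ×ˢ Set.Icc (-R) R)) := by
    refine (isCompact_Icc.prod isCompact_Icc).image ?_
    fun_prop
  obtain ⟨M, hM⟩ := hc.exists_bound_of_continuousOn hg.continuous.continuousOn
  have hb := cfn_bound g hg hp R M hR0 (fun x y hx hy => hM _ ⟨(x, y), ⟨hx, abs_le.1 hy⟩, rfl⟩)
  have hg2 : Summable fun n : ℤ => M * (Real.exp (-(2 * Real.pi))) ^ n.natAbs := by
    refine Summable.mul_left _ ?_
    have hg : Summable fun n : ℕ => Real.exp (-(2 * Real.pi)) ^ n :=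
      summable_geometric_of_lt_one (Real.exp_pos _).le
        (by rw [Real.exp_lt_one_iff]; linarith [Real.pi_pos])
    refine Summable.of_nat_of_neg ?_ ?_
    · simpa using hg
    · simpa using hg
  refine Summable.of_nonneg_of_le (fun n => norm_nonneg _) (fun n => ?_) hg2
  rw [norm_smul]
  have h1 := ee_norm_le n z |z.im| le_rfl
  calc ‖ee n z‖ * ‖cfn g n‖ ≤ Real.exp (2 * Real.pi * |z.im|) ^ n.natAbs *
        (M * (Real.exp (-(2 * Real.pi * R))) ^ n.natAbs) := by gcongr; exact hb n
    _ = M * (Real.exp (2 * Real.pi * |z.im|) * Real.exp (-(2 * Real.pi * R))) ^ n.natAbs := by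
        rw [mul_pow]; ring
    _ = _ := by
        rw [← Real.exp_add, hR]
        congr 3
        ring

/-- Inversion for vector valued functions. -/
theorem inversion (g : ℂ → B) (hg : Differentiable ℂ g) (hp : ∀ z, g (z + 1) = g z) (z : ℂ) :
    HasSum (fun n : ℤ => ee n z • cfn g n) (g z) := by
  have hs : Summable fun n : ℤ => ee n z • cfn g n := (summable_norm_exp g hg hp z).of_norm
  have : ∑' n : ℤ, ee n z • cfn g n = g z := by
    rw [SeparatingDual.eq_iff_forall_dual_eq (R := ℂ)]
    intro φ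
    have h1 := φ.hasSum hs.hasSum
    have hφg : Differentiable ℂ (fun w => φ (g w)) := φ.differentiable.comp hg
    have hφp : ∀ w, φ (g (w + 1)) = φ (g w) := fun w => by rw [hp]
    have h2 := inversion_scalar (fun w => φ (g w)) hφg hφp
      (fun w => summable_norm_exp _ hφg hφp w) z
    have h3 : ∀ n : ℤ, φ (ee n z • cfn g n) = ee n z • cfn (fun w => φ (g w)) n := by
      intro n
      rw [map_smul]
      congr 1
      unfold cfn
      rw [← ContinuousLinearMap.intervalIntegral_comp_comm]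
      · simp
      · apply Continuous.intervalIntegrable
        have := hg.continuous
        have := ee_cont (-n)
        fun_prop
    simp only [Function.comp_def, h3] at h1
    exact h1.unique h2
  rw [← this]
  exact hs.hasSum

/-- Holomorphic dependence on a parameter. -/
theorem holo_param (F : ℝ → ℂ → B) (hc : Continuous (fun p : ℝ × ℂ => F p.1 p.2))
    (hd : ∀ x, Differentiable ℂ (F x)) : Differentiable ℂ (fun ζ => ∫ x in (0:ℝ)..1, F x ζ) := by
  intro ζ₀
  have hcomp : IsCompact (Set.Icc (0:ℝ) 1 ×ˢ Metric.closedBall ζ₀ 2) :=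
    isCompact_Icc.prod (isCompact_closedBall _ _)
  obtain ⟨M, hM⟩ := hcomp.exists_bound_of_continuousOn hc.continuousOn
  have hmeas := stronglyMeasurable_deriv_with_param (f := F) (𝕜 := ℂ) hc
  have key := intervalIntegral.hasDerivAt_integral_of_dominated_loc_of_deriv_le
    (μ := MeasureTheory.volume) (a := (0:ℝ)) (b := 1)
    (F := fun ζ x => F x ζ) (F' := fun ζ x => deriv (F x) ζ) (x₀ := ζ₀)
    (s := Metric.ball ζ₀ 1) (bound := fun _ => M) (Metric.ball_mem_nhds _ one_pos)
    (Eventually.of_forall fun ζ => by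
      have : Continuous fun x => F x ζ := hc.comp (by fun_prop : Continuous fun x : ℝ => (x, ζ))
      exact this.aestronglyMeasurable)
    (by
      have : Continuous fun x => F x ζ₀ := hc.comp (by fun_prop : Continuous fun x : ℝ => (x, ζ₀))
      exact this.intervalIntegrable _ _)
    (by
      exact (hmeas.comp_measurable (measurable_id.prodMk measurable_const)).aestronglyMeasurable)
    (Eventually.of_forall fun x hx ζ hζ => by
      rw [Set.uIoc_of_le zero_le_one] at hx
      have h1 := Complex.norm_deriv_le_of_forall_mem_sphere_norm_le (f := F x) (c := ζ) (C := M)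
        one_pos (hd x).diffContOnCl (fun w hw => by
          refine hM (x, w) ⟨⟨hx.1.le, hx.2⟩, ?_⟩
          rw [Metric.mem_closedBall]
          rw [Metric.mem_sphere] at hw
          rw [Metric.mem_ball] at hζ
          have := dist_triangle w ζ ζ₀
          linarith)
      simpa using h1)
    (by simp)
    (Eventually.of_forall fun x hx ζ hζ => ((hd x) ζ).hasDerivAt)
  exact key.2.differentiableAt

end

end Pool.Agent.Helper148.PM
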