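import Mathlib

set_option autoImplicit false

namespace Pool.Agent.Helper148.PM

open scoped ENNReal Topology
open Filter

noncomputable section

/-- The function sin (pi v) divided by v. -/
def gg (v : ℂ) : ℂ := dslope (fun v => Complex.sin (Real.pi * v)) 0 v

lemma sinpi_diff : Differentiable ℂ (fun v : ℂ => Complex.sin (Real.pi * v)) := by fun_prop

lemma gg_diff : Differentiable ℂ gg := by
  have h := (Complex.differentiableOn_dslope (s := Set.univ) (c := (0:ℂ))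
    (f := fun v => Complex.sin (Real.pi * v)) univ_mem).2 sinpi_diff.differentiableOn
  exact differentiableOn_univ.1 h

lemma gg_zero : gg 0 = Real.pi := by
  unfold gg
  rw [dslope_same]
  have h : HasDerivAt (fun v : ℂ => Complex.sin (Real.pi * v)) (Complex.cos (Real.pi * 0) * (Real.pi * 1)) 0 := by
    have h1 : HasDerivAt (fun v : ℂ => (Real.pi : ℂ) * v) (Real.pi * 1) 0 :=
      (hasDerivAt_id (0:ℂ)).const_mul _
    exact (Complex.hasDerivAt_sin _).comp (0:ℂ) h1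
  rw [h.deriv]
  simp

lemma gg_ne {v : ℂ} (hv : v ≠ 0) : gg v = Complex.sin (Real.pi * v) / v := by
  unfold gg
  rw [dslope_of_ne _ hv, slope_def_field]
  simp

lemma gg_int (k : ℤ) (hk : k ≠ 0) : gg k = 0 := by
  rw [gg_ne (by exact_mod_cast hk), mul_comm, Complex.sin_int_mul_pi, zero_div]

lemma norm_sin_le (z : ℂ) : ‖Complex.sin z‖ ≤ Real.exp |z.im| := by
  have h : Complex.sin z = ((Complex.exp (-z * Complex.I) - Complex.exp (z * Complex.I)) * Complex.I) / 2 := rfl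
  rw [h, norm_div, norm_mul, Complex.norm_I, mul_one]
  have h1 : ‖Complex.exp (-z * Complex.I)‖ ≤ Real.exp |z.im| := by
    rw [Complex.norm_exp]
    apply Real.exp_le_exp.2
    simp only [Complex.mul_re, Complex.neg_re, Complex.I_re, mul_zero, Complex.neg_im, Complex.I_im, mul_one]
    linarith [le_abs_self z.im]
  have h2 : ‖Complex.exp (z * Complex.I)‖ ≤ Real.exp |z.im| := by
    rw [Complex.norm_exp]
    apply Real.exp_le_exp.2
    simp only [Complex.mul_re, Complex.I_re, mul_zero, Complex.I_im, mul_one]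
    linarith [neg_abs_le z.im]
  have h3 := norm_sub_le (Complex.exp (-z * Complex.I)) (Complex.exp (z * Complex.I))
  have h4 : ‖(2:ℂ)‖ = 2 := by simp
  rw [h4]
  linarith

lemma gg_bound : ∃ M : ℝ, 0 < M ∧ ∀ v, ‖gg v‖ ≤ M * Real.exp (Real.pi * |v.im|) := by
  obtain ⟨M, hM⟩ := (isCompact_closedBall (0:ℂ) 1).exists_bound_of_continuousOn
    gg_diff.continuous.continuousOn
  refine ⟨max M 1, lt_of_lt_of_le one_pos (le_max_right _ _), fun v => ?_⟩
  have he : 1 ≤ Real.exp (Real.pi * |v.im|) := Real.one_le_exp (by positivity)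
  by_cases hv : ‖v‖ ≤ 1
  · have h1 := hM v (by simpa using hv)
    calc ‖gg v‖ ≤ M := h1
      _ ≤ max M 1 := le_max_left _ _
      _ = max M 1 * 1 := by ring
      _ ≤ _ := by gcongr
  · push Not at hv
    have hv0 : v ≠ 0 := by
      rintro rfl
      simp at hv
      linarith
    rw [gg_ne hv0, norm_div]
    have h1 := norm_sin_le (Real.pi * v)
    have h2 : |((Real.pi : ℂ) * v).im| = Real.pi * |v.im| := by
      rw [Complex.im_ofReal_mul, abs_mul, abs_of_pos Real.pi_pos]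
    rw [h2] at h1
    calc ‖Complex.sin (Real.pi * v)‖ / ‖v‖ ≤ ‖Complex.sin (Real.pi * v)‖ := div_le_self (norm_nonneg _) hv.le
      _ ≤ Real.exp (Real.pi * |v.im|) := h1
      _ = 1 * Real.exp (Real.pi * |v.im|) := by ring
      _ ≤ _ := by gcongr; exact le_max_right _ _

/-- The kernel function. -/
def kap (u : ℂ) : ℂ := gg u / Real.pi * Complex.exp (-u ^ 2)

lemma kap_diff : Differentiable ℂ kap := by
  unfold kap
  have := gg_diff
  fun_prop

lemma kap_zero : kap 0 = 1 := by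
  unfold kap
  rw [gg_zero]
  have : (Real.pi : ℂ) ≠ 0 := by exact_mod_cast Real.pi_ne_zero
  field_simp
  simp

lemma kap_int (k : ℤ) (hk : k ≠ 0) : kap k = 0 := by
  unfold kap
  rw [gg_int k hk]
  simp

lemma kap_bound (R : ℝ) (hR : 0 ≤ R) : ∃ C : ℝ, 0 < C ∧ ∀ u : ℂ, ‖u‖ ≤ R → ∀ k : ℤ,
    ‖kap (u - k)‖ ≤ C * Real.exp (-((k : ℝ) ^ 2 / 2)) := by
  obtain ⟨M, hM0, hM⟩ := gg_bound
  refine ⟨M / Real.pi * Real.exp (Real.pi * R) * Real.exp (2 * R ^ 2), by positivity, fun u hu k => ?_⟩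
  have him : |u.im| ≤ R := (Complex.abs_im_le_norm u).trans hu
  have hre : |u.re| ≤ R := (Complex.abs_re_le_norm u).trans hu
  have h1 := hM (u - k)
  have h2 : (u - (k:ℂ)).im = u.im := by simp
  rw [h2] at h1
  have h3 : ‖gg (u - k)‖ ≤ M * Real.exp (Real.pi * R) := by
    refine h1.trans ?_
    gcongr
  unfold kap
  rw [norm_mul, norm_div, Complex.norm_real, Real.norm_of_nonneg Real.pi_pos.le]
  have h4 : ‖Complex.exp (-(u - (k:ℂ)) ^ 2)‖ ≤ Real.exp (2 * R ^ 2) * Real.exp (-((k : ℝ) ^ 2 / 2)) := by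
    rw [Complex.norm_exp, ← Real.exp_add]
    apply Real.exp_le_exp.2
    have h5 : (-(u - (k:ℂ)) ^ 2).re = -((u.re - k) ^ 2) + u.im ^ 2 := by
      simp [pow_two]
      ring
    rw [h5]
    have h6 : u.im ^ 2 ≤ R ^ 2 := by
      rw [← sq_abs u.im]; gcongr
    have h7 : u.re ^ 2 ≤ R ^ 2 := by
      rw [← sq_abs u.re]; gcongr
    nlinarith [sq_nonneg (2 * u.re - (k:ℝ))]
  calc ‖gg (u - k)‖ / Real.pi * ‖Complex.exp (-(u - (k:ℂ)) ^ 2)‖
      ≤ (M * Real.exp (Real.pi * R)) / Real.pi *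
        (Real.exp (2 * R ^ 2) * Real.exp (-((k : ℝ) ^ 2 / 2))) := by gcongr
    _ = _ := by ring

section Algebra

variable {A : Type*} [NormedRing A] [NormedAlgebra ℂ A] [CompleteSpace A]

omit [NormedAlgebra ℂ A] [CompleteSpace A] in
lemma zpow_norm_le (T : Aˣ) : ∃ L : ℝ, 1 ≤ L ∧ ∀ k : ℤ, ‖((T ^ k : Aˣ) : A)‖ ≤ L * L ^ k.natAbs := by
  set L : ℝ := max (max ‖(T : A)‖ ‖((T⁻¹ : Aˣ) : A)‖) (max ‖(1 : A)‖ 1) with hL
  have hL1 : 1 ≤ L := (le_max_right _ _).trans (le_max_right _ _)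
  have hL2 : ‖(1:A)‖ ≤ L := (le_max_left _ _).trans (le_max_right _ _)
  have hL3 : ‖(T:A)‖ ≤ L := (le_max_left _ _).trans (le_max_left _ _)
  have hL4 : ‖((T⁻¹ : Aˣ):A)‖ ≤ L := (le_max_right _ _).trans (le_max_left _ _)
  have hpow : ∀ (x : A), ‖x‖ ≤ L → ∀ n : ℕ, ‖x ^ n‖ ≤ L * L ^ n := by
    intro x hx n
    induction n with
    | zero => simpa using hL2
    | succ n ih =>
      rw [pow_succ, pow_succ]
      calc ‖x ^ n * x‖ ≤ ‖x ^ n‖ * ‖x‖ := norm_mul_le _ _
        _ ≤ (L * L ^ n) * L := by gcongr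
        _ = _ := by ring
  refine ⟨L, hL1, fun k => ?_⟩
  rcases Int.natAbs_eq k with h | h
  · have h1 : ((T ^ k : Aˣ) : A) = (T : A) ^ k.natAbs := by
      conv_lhs => rw [h]
      rw [zpow_natCast, Units.val_pow_eq_pow_val]
    rw [h1]
    exact hpow _ hL3 _
  · have h1 : ((T ^ k : Aˣ) : A) = ((T⁻¹ : Aˣ) : A) ^ k.natAbs := by
      conv_lhs => rw [h]
      rw [zpow_neg, zpow_natCast, ← inv_pow, Units.val_pow_eq_pow_val]
    rw [h1]
    exact hpow _ hL4 _

lemma exp_summable (L : ℝ) (hL : 1 ≤ L) :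
    Summable fun k : ℤ => Real.exp (-((k : ℝ) ^ 2 / 2)) * L ^ k.natAbs := by
  have hl : 0 ≤ Real.log L := Real.log_nonneg hL
  have hbase : Summable fun k : ℤ => Real.exp ((Real.log L + 1) ^ 2 / 2) * Real.exp (-1) ^ k.natAbs := by
    refine Summable.mul_left _ ?_
    have hg : Summable fun n : ℕ => Real.exp (-1) ^ n :=
      summable_geometric_of_lt_one (Real.exp_pos _).le (by rw [Real.exp_lt_one_iff]; norm_num)
    refine Summable.of_nat_of_neg ?_ ?_
    · simpa using hg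
    · simpa using hg
  refine Summable.of_nonneg_of_le (fun k => by positivity) (fun k => ?_) hbase
  have h1 : L ^ k.natAbs = Real.exp (Real.log L * |(k:ℝ)|) := by
    have : (|(k:ℝ)|) = (k.natAbs : ℝ) := by
      rw [Nat.cast_natAbs, Int.cast_abs]
    rw [this, mul_comm, Real.exp_nat_mul, Real.exp_log (by linarith)]
  have h2 : Real.exp (-1) ^ k.natAbs = Real.exp (-1 * |(k:ℝ)|) := by
    have : (|(k:ℝ)|) = (k.natAbs : ℝ) := by
      rw [Nat.cast_natAbs, Int.cast_abs]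
    rw [this, mul_comm, Real.exp_nat_mul]
  rw [h1, h2, ← Real.exp_add, ← Real.exp_add]
  apply Real.exp_le_exp.2
  have h3 : (k:ℝ) ^ 2 = |(k:ℝ)| ^ 2 := (sq_abs _).symm
  rw [h3]
  nlinarith [sq_nonneg (|(k:ℝ)| - (Real.log L + 1))]

/-- The operator valued interpolation of the integer powers of `T`. -/
def Th (T : Aˣ) (u : ℂ) : A := ∑' k : ℤ, kap (u - k) • ((T ^ k : Aˣ) : A)

omit [CompleteSpace A] in
lemma Th_term_bound (T : Aˣ) (R : ℝ) (hR : 0 ≤ R) : ∃ v : ℤ → ℝ, Summable v ∧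
    ∀ k : ℤ, ∀ u : ℂ, ‖u‖ ≤ R → ‖kap (u - k) • ((T ^ k : Aˣ) : A)‖ ≤ v k := by
  obtain ⟨C, hC0, hC⟩ := kap_bound R hR
  obtain ⟨L, hL1, hL⟩ := zpow_norm_le T
  refine ⟨fun k => (C * L) * (Real.exp (-((k : ℝ) ^ 2 / 2)) * L ^ k.natAbs),
    (exp_summable L hL1).mul_left _, fun k u hu => ?_⟩
  rw [norm_smul]
  calc ‖kap (u - k)‖ * ‖((T ^ k : Aˣ) : A)‖
      ≤ (C * Real.exp (-((k : ℝ) ^ 2 / 2))) * (L * L ^ k.natAbs) := by
        gcongr
        · exact hC u hu k
        · exact hL k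
    _ = _ := by ring

lemma Th_summable (T : Aˣ) (u : ℂ) : Summable fun k : ℤ => kap (u - k) • ((T ^ k : Aˣ) : A) := by
  obtain ⟨v, hv, hb⟩ := Th_term_bound T ‖u‖ (norm_nonneg _)
  exact Summable.of_norm_bounded hv fun k => hb k u le_rfl

lemma Th_diff (T : Aˣ) : Differentiable ℂ (Th T) := by
  intro u
  obtain ⟨v, hv, hb⟩ := Th_term_bound T (‖u‖ + 1) (by positivity)
  have h : DifferentiableOn ℂ (Th T) (Metric.ball 0 (‖u‖ + 1)) := by
    refine Complex.differentiableOn_tsum_of_summable_norm hv (fun k => ?_) Metric.isOpen_ball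
      (fun k w hw => hb k w (by simpa using (Metric.mem_ball.1 hw).le))
    refine Differentiable.differentiableOn ?_
    have := kap_diff
    fun_prop
  exact h.differentiableAt (Metric.isOpen_ball.mem_nhds (by simp))

lemma Th_zero (T : Aˣ) : Th T 0 = 1 := by
  unfold Th
  rw [tsum_eq_single (0 : ℤ)]
  · simp [kap_zero]
  · intro k hk
    have : kap (0 - (k:ℂ)) = 0 := by
      have := kap_int (-k) (by simpa using hk)
      rw [zero_sub]
      exact_mod_cast this
    rw [this, zero_smul]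

lemma Th_add_one (T : Aˣ) (u : ℂ) : Th T (u + 1) = (T : A) * Th T u := by
  unfold Th
  rw [← (Equiv.addRight (1:ℤ)).tsum_eq, ← (Th_summable T u).tsum_mul_left]
  refine tsum_congr fun k => ?_
  have h1 : (u + 1 - (((Equiv.addRight (1:ℤ)) k : ℤ) : ℂ)) = u - k := by
    simp
  rw [h1, mul_smul_comm]
  congr 1
  have h2 : (Equiv.addRight (1:ℤ)) k = 1 + k := by simp [add_comm]
  rw [h2, zpow_add, zpow_one, Units.val_mul]

lemma Th_comm (T : Aˣ) (u : ℂ) : (T : A) * Th T u = Th T u * (T : A) := by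
  unfold Th
  rw [← (Th_summable T u).tsum_mul_left, ← (Th_summable T u).tsum_mul_right]
  refine tsum_congr fun k => ?_
  rw [mul_smul_comm, smul_mul_assoc, ← Units.val_mul, ← Units.val_mul, ← zpow_one_add, ← zpow_add_one,
    add_comm]

lemma Th_sub_one (T : Aˣ) (u : ℂ) : Th T (u - 1) * (T : A) = Th T u := by
  rw [← Th_comm, ← Th_add_one, sub_add_cancel]

end Algebra

end

end Pool.Agent.Helper148.PM
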