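import Mathlib
import Pool.Agent.Helper148.Defs
import Pool.Agent.Helper148.Fourier
import Pool.Agent.Helper148.Theta

set_option autoImplicit false

namespace Pool.Agent.Helper148.PM

open scoped Topology
open Filter

noncomputable section

/-- The extension of a weakly differentiable function. -/
lemma holo_ext {U : Set ℂ} (hU : IsOpen U) {E : Type*} [AddCommGroup E] [Module ℂ E]
    [TopologicalSpace E] (f : C(U, E)) (hf : IsHolo f) (φ : E →L[ℂ] ℂ) :
    ∃ g : ℂ → ℂ, DifferentiableOn ℂ g U ∧ ∀ z : U, g z = φ (f z) := by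
  classical
  refine ⟨fun w => if h : w ∈ U then φ (f ⟨w, h⟩) else 0, ?_, ?_⟩
  · intro w hw
    obtain ⟨d, hd⟩ := hf ⟨w, hw⟩
    have h1 := (φ.continuous.tendsto d).comp hd
    have h2 : HasDerivAt (fun w => if h : w ∈ U then φ (f ⟨w, h⟩) else 0) (φ d) w := by
      rw [hasDerivAt_iff_tendsto_slope]
      have h3 := hU.isOpenEmbedding_subtypeVal.map_nhdsWithin_preimage_eq {w}ᶜ ⟨w, hw⟩
      have h4 : (Subtype.val ⁻¹' {w}ᶜ : Set U) = {⟨w, hw⟩}ᶜ := by
        ext y
        simp [Subtype.ext_iff]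
      rw [h4] at h3
      have h5 : 𝓝[≠] w = map (Subtype.val : U → ℂ) (𝓝[≠] ⟨w, hw⟩) := h3.symm
      rw [h5, tendsto_map'_iff]
      refine h1.congr fun y => ?_
      simp only [Function.comp_apply, map_smul, map_sub, slope_def_module, hw, dif_pos, y.2]
    exact h2.differentiableAt.differentiableWithinAt
  · intro z
    simp

lemma isHolo_of_diff {U : Set ℂ} (hU : IsOpen U) {B : Type*} [NormedAddCommGroup B] [NormedSpace ℂ B]
    (f : C(U, B)) (g : ℂ → B) (hg : DifferentiableOn ℂ g U) (h : ∀ z : U, f z = g z) : IsHolo f := by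
  intro z
  have h1 := ((hg z z.2).differentiableAt (hU.mem_nhds z.2)).hasDerivAt
  rw [hasDerivAt_iff_tendsto_slope] at h1
  refine ⟨deriv g z, ?_⟩
  have h2 : Tendsto (Subtype.val : U → ℂ) (𝓝[≠] z) (𝓝[≠] (z : ℂ)) := by
    refine tendsto_nhdsWithin_iff.2 ⟨(continuous_subtype_val.tendsto z).mono_left nhdsWithin_le_nhds, ?_⟩
    filter_upwards [self_mem_nhdsWithin] with y hy
    exact fun hc => hy (Subtype.ext hc)
  refine (h1.comp h2).congr fun y => ?_
  simp only [Function.comp_apply, slope_def_module, h]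

/-- The punctured plane. -/
def U0 : Set ℂ := {0}ᶜ

lemma U0_open : IsOpen U0 := isOpen_compl_singleton

/-- The exponential covering of the punctured plane. -/
def expo : C(ℂ, U0) :=
  ⟨fun z => ⟨ee 1 z, Complex.exp_ne_zero _⟩, Continuous.subtype_mk (ee_cont 1) _⟩

lemma expo_add_one (z : ℂ) : expo (z + 1) = expo z := by
  apply Subtype.ext
  show ee 1 (z + 1) = ee 1 z
  rw [ee_add, ee_one, mul_one]

lemma expo_surj (w : U0) : ∃ z, expo z = w := by
  refine ⟨Complex.log w / (2 * Real.pi * Complex.I), Subtype.ext ?_⟩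
  show ee 1 _ = (w : ℂ)
  unfold ee
  have h : (2 * Real.pi * Complex.I : ℂ) ≠ 0 := Complex.two_pi_I_ne_zero
  have : (2 * Real.pi * Complex.I * ((1:ℤ):ℂ) * (Complex.log w / (2 * Real.pi * Complex.I)) : ℂ) = Complex.log w := by
    field_simp
    simp
  rw [this, Complex.exp_log]
  exact w.2

lemma pull_diff {E : Type*} [AddCommGroup E] [Module ℂ E]
    [TopologicalSpace E] (f : C(U0, E)) (hf : IsHolo f) (φ : E →L[ℂ] ℂ) :
    Differentiable ℂ (fun z => φ (f (expo z))) := by
  obtain ⟨g, hg, hgf⟩ := holo_ext U0_open f hf φ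
  have h1 : (fun z => φ (f (expo z))) = fun z => g (ee 1 z) := by
    ext z
    rw [← hgf]
    rfl
  rw [h1]
  intro z
  have h2 : DifferentiableAt ℂ g (ee 1 z) :=
    (hg _ (Complex.exp_ne_zero _)).differentiableAt (U0_open.mem_nhds (Complex.exp_ne_zero _))
  exact h2.comp z (ee_diff 1 z)

lemma pull_diff' (f : C(U0, ℂ)) (hf : IsHolo f) : Differentiable ℂ (fun z => f (expo z)) :=
  pull_diff f hf (ContinuousLinearMap.id ℂ ℂ)

variable {F : Type*} [NormedAddCommGroup F] [NormedSpace ℂ F] [CompleteSpace F]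

/-- The space of sections of the flat bundle with monodromy `T`. -/
def XT (T : (F →L[ℂ] F)ˣ) : Submodule ℂ C(ℂ, F) where
  carrier := {f | Differentiable ℂ f ∧ ∀ z, f (z + 1) = (T : F →L[ℂ] F) (f z)}
  add_mem' {f g} hf hg := by
    refine ⟨hf.1.add hg.1, fun z => ?_⟩
    rw [ContinuousMap.add_apply, ContinuousMap.add_apply, hf.2, hg.2, map_add]
  zero_mem' := by
    refine ⟨differentiable_const 0, fun z => ?_⟩
    simp
  smul_mem' c f hf := by
    refine ⟨hf.1.const_smul c, fun z => ?_⟩
    rw [ContinuousMap.smul_apply, ContinuousMap.smul_apply, hf.2, map_smul]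

variable {T : (F →L[ℂ] F)ˣ}

omit [CompleteSpace F] in
lemma XT_smul_mem (h : OO U0) (f : XT T) :
    ((h : C(U0, ℂ)).comp expo • (f : C(ℂ, F)) : C(ℂ, F)) ∈ XT T := by
  refine ⟨?_, fun z => ?_⟩
  · exact (pull_diff' (h : C(U0, ℂ)) h.2).smul f.2.1
  · rw [ContinuousMap.smul_apply', ContinuousMap.smul_apply', ContinuousMap.comp_apply,
      ContinuousMap.comp_apply, expo_add_one, f.2.2, map_smul]

instance : Module (OO U0) (XT T) where
  smul h f := ⟨(h : C(U0, ℂ)).comp expo • (f : C(ℂ, F)), XT_smul_mem h f⟩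
  one_smul f := Subtype.ext (one_smul C(ℂ, ℂ) (f : C(ℂ, F)))
  mul_smul h k f := Subtype.ext
    (mul_smul ((h : C(U0, ℂ)).comp expo) ((k : C(U0, ℂ)).comp expo) (f : C(ℂ, F)))
  smul_zero h := Subtype.ext (smul_zero ((h : C(U0, ℂ)).comp expo))
  smul_add h f g := Subtype.ext
    (smul_add ((h : C(U0, ℂ)).comp expo) (f : C(ℂ, F)) (g : C(ℂ, F)))
  add_smul h k f := Subtype.ext
    (add_smul ((h : C(U0, ℂ)).comp expo) ((k : C(U0, ℂ)).comp expo) (f : C(ℂ, F)))
  zero_smul f := Subtype.ext (zero_smul C(ℂ, ℂ) (f : C(ℂ, F)))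

omit [CompleteSpace F] in
lemma XT_smul_apply (h : OO U0) (f : XT T) (z : ℂ) :
    ((h • f : XT T) : C(ℂ, F)) z = (h : C(U0, ℂ)) (expo z) • (f : C(ℂ, F)) z := rfl

/-- Continuous maps into a uniform additive group form a uniform additive group. -/
instance cUniform {α β : Type*} [TopologicalSpace α] [UniformSpace β] [AddGroup β]
    [IsUniformAddGroup β] : IsUniformAddGroup C(α, β) where
  uniformContinuous_sub := by
    rw [UniformContinuous, Filter.tendsto_def]
    intro s hs
    rw [ContinuousMap.mem_compactConvergence_entourage_iff] at hs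
    obtain ⟨K, V, hK, hV, hs⟩ := hs
    have h1 := uniformContinuous_sub (α := β)
    have h2 := h1 hV
    rw [Filter.mem_map, uniformity_prod_eq_comap_prod, Filter.mem_comap] at h2
    obtain ⟨W, hW, hWs⟩ := h2
    rw [Filter.mem_prod_iff] at hW
    obtain ⟨W1, hW1, W2, hW2, hW12⟩ := hW
    rw [uniformity_prod_eq_comap_prod, Filter.mem_comap]
    refine ⟨{fg : C(α, β) × C(α, β) | ∀ x ∈ K, (fg.1 x, fg.2 x) ∈ W1} ×ˢ
      {fg : C(α, β) × C(α, β) | ∀ x ∈ K, (fg.1 x, fg.2 x) ∈ W2}, ?_, ?_⟩
    · refine Filter.prod_mem_prod ?_ ?_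
      · rw [ContinuousMap.mem_compactConvergence_entourage_iff]
        exact ⟨K, W1, hK, hW1, subset_rfl⟩
      · rw [ContinuousMap.mem_compactConvergence_entourage_iff]
        exact ⟨K, W2, hK, hW2, subset_rfl⟩
    · rintro ⟨⟨a, b⟩, ⟨c, d⟩⟩ hp
      apply hs
      intro x hx
      have : ((a x, b x), (c x, d x)) ∈ (fun p : (β × β) × (β × β) => (p.1.1 - p.1.2, p.2.1 - p.2.2)) ⁻¹' V :=
        hWs (hW12 ⟨hp.1 x hx, hp.2 x hx⟩)
      exact this

lemma continuous_smul' {α M : Type*} [TopologicalSpace α] [LocallyCompactSpace α]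
    [TopologicalSpace M] [AddCommMonoid M] [Module ℂ M] [ContinuousSMul ℂ M] :
    Continuous (fun p : C(α, ℂ) × C(α, M) => p.1 • p.2) := by
  apply ContinuousMap.continuous_of_continuous_uncurry
  show Continuous fun q : (C(α, ℂ) × C(α, M)) × α => q.1.1 q.2 • q.1.2 q.2
  fun_prop

lemma XT_closed : IsClosed (XT T : Set C(ℂ, F)) := by
  rw [isClosed_iff_ultrafilter]
  intro f u hu hm
  have hlim : Tendsto (fun g : C(ℂ, F) => g) (u : Filter C(ℂ, F)) (𝓝 f) := hu
  constructor
  · have h1 := ContinuousMap.tendsto_iff_tendstoLocallyUniformly.1 hlim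
    have h2 := (tendstoLocallyUniformlyOn_univ.2 h1).differentiableOn
      (by
        filter_upwards [hm] with g hg
        exact hg.1.differentiableOn) isOpen_univ
    exact differentiableOn_univ.1 h2
  · intro z
    have h1 : Tendsto (fun g : C(ℂ, F) => g (z + 1)) (u : Filter C(ℂ, F)) (𝓝 (f (z + 1))) :=
      ((continuous_eval_const (z + 1)).tendsto f).comp hlim
    have h2 : Tendsto (fun g : C(ℂ, F) => (T : F →L[ℂ] F) (g z)) (u : Filter C(ℂ, F))
        (𝓝 ((T : F →L[ℂ] F) (f z))) :=
      (((T : F →L[ℂ] F).continuous.comp (continuous_eval_const z)).tendsto f).comp hlim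
    refine tendsto_nhds_unique h1 (h2.congr' ?_)
    filter_upwards [hm] with g hg
    exact (hg.2 z).symm

instance : IsPolynormedModule U0 (XT T) where
  uniformContinuous_sub := by
    have : IsUniformAddGroup (XT T).toAddSubgroup := inferInstance
    exact this.uniformContinuous_sub
  continuous_smul := by
    have : ContinuousSMul ℂ (XT T) := inferInstance
    exact this.continuous_smul
  convex_basis := by
    have : LocallyConvexSpace ℝ ((XT T).restrictScalars ℝ) := inferInstance
    exact this.convex_basis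
  t2 := by
    have : T2Space (XT T) := inferInstance
    exact this.t2
  complete := by
    have : CompleteSpace (XT T) := XT_closed.completeSpace_coe
    intro f hf
    exact this.complete hf
  smul_assoc c h f := by
    apply Subtype.ext
    ext z
    exact smul_assoc c ((h : C(U0, ℂ)) (expo z)) ((f : C(ℂ, F)) z)
  jointly_continuous := by
    constructor
    refine Continuous.subtype_mk (f := fun p : OO U0 × XT T =>
      ((p.1 : C(U0, ℂ)).comp expo • (p.2 : C(ℂ, F)) : C(ℂ, F))) ?_ _
    have h1 : Continuous fun p : OO U0 × XT T => (p.1 : C(U0, ℂ)).comp expo :=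
      (ContinuousMap.continuous_precomp expo).comp (continuous_subtype_val.comp continuous_fst)
    exact continuous_smul'.comp (h1.prodMk (continuous_subtype_val.comp continuous_snd))

end

end Pool.Agent.Helper148.PM
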