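import Mathlib
import Pool.Agent.Helper148.XT

set_option autoImplicit false

namespace Pool.Agent.Helper148.PM

open scoped Topology
open Filter

noncomputable section

section
open scoped ComplexOrder

lemma convex_complex {E : Type*} [AddCommGroup E] [Module ℂ E] {s : Set E} (hs : Convex ℝ s) :
    Convex ℂ s := by
  intro x hx y hy a b ha hb hab
  have ha' : ((a.re : ℝ) : ℂ) = a := by
    apply Complex.ext
    · simp
    · rw [Complex.ofReal_im]; exact (Complex.le_def.1 ha).2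
  have hb' : ((b.re : ℝ) : ℂ) = b := by
    apply Complex.ext
    · simp
    · rw [Complex.ofReal_im]; exact (Complex.le_def.1 hb).2
  have h1 : a.re + b.re = 1 := by
    have := congrArg Complex.re hab
    simpa using this
  have h2 := hs hx hy (Complex.le_def.1 ha).1 (Complex.le_def.1 hb).1 h1
  rw [← ha', ← hb']
  exact h2

lemma poly_of_polynormed {Y : Type*} [AddCommGroup Y] [Module ℂ Y] [UniformSpace Y]
    [IsPolynormedSpace Y] : PolynormableSpace ℂ Y := by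
  have : ContinuousSMul ℝ Y := by
    constructor
    have h : Continuous fun p : ℝ × Y => ((p.1 : ℂ)) • p.2 :=
      (Complex.continuous_ofReal.comp continuous_fst).smul continuous_snd
    exact h
  have h2 : LocallyConvexSpace ℂ Y := by
    rw [locallyConvexSpace_iff_exists_convex_subset_zero]
    intro U hU
    obtain ⟨S, hS, hc, hSU⟩ := (locallyConvexSpace_iff_exists_convex_subset_zero ℝ Y).1 inferInstance U hU
    exact ⟨S, hS, convex_complex hc, hSU⟩
  exact LocallyConvexSpace.toPolynormableSpace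
end

section Gen

variable {Y : Type*} [AddCommGroup Y] [Module ℂ Y] [UniformSpace Y] [IsPolynormedSpace Y]

lemma exists_seminorm {e : Set Y} (he : e ∈ 𝓝 (0 : Y)) :
    ∃ q : Seminorm ℂ Y, Continuous q ∧ ∀ y, q y < 1 → y ∈ e := by
  have := poly_of_polynormed (Y := Y)
  have hw := PolynormableSpace.withSeminorms ℂ Y
  obtain ⟨s, r, hr, hs⟩ := (hw.mem_nhds_iff (0 : Y) e).1 he
  have h2 : (Real.toNNReal r⁻¹ : ℝ) = r⁻¹ := Real.coe_toNNReal _ (by positivity)
  have h3 : ∀ y : Y, (Real.toNNReal r⁻¹ • (s.sup fun i => i.1 : Seminorm ℂ Y)) y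
      = r⁻¹ * (s.sup fun i => i.1 : Seminorm ℂ Y) y := by
    intro y
    rw [_root_.smul_apply, NNReal.smul_def, h2, smul_eq_mul]
  refine ⟨Real.toNNReal r⁻¹ • (s.sup fun i => i.1 : Seminorm ℂ Y), ?_, fun y hy => ?_⟩
  · have h1 : Continuous (s.sup fun i => i.1 : Seminorm ℂ Y) :=
      Seminorm.continuous_finsetSup fun i _ => i.2
    have h4 : Continuous fun y : Y => r⁻¹ * (s.sup fun i => i.1 : Seminorm ℂ Y) y :=
      continuous_const.mul h1
    exact h4.congr fun y => (h3 y).symm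
  · apply hs
    rw [Seminorm.mem_ball, sub_zero]
    rw [h3] at hy
    rwa [inv_mul_lt_iff₀ hr, mul_one] at hy

lemma summable_of_seminorms (y : ℤ → Y)
    (h : ∀ q : Seminorm ℂ Y, Continuous q → Summable fun n => q (y n)) : Summable y := by
  rw [summable_iff_vanishing]
  intro e he
  obtain ⟨q, hq, hqe⟩ := exists_seminorm he
  obtain ⟨s, hs⟩ := summable_iff_vanishing.1 (h q hq) (Metric.ball 0 1) (Metric.ball_mem_nhds _ one_pos)
  refine ⟨s, fun t ht => hqe _ ?_⟩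
  have h1 := hs t ht
  rw [Metric.mem_ball, dist_zero_right, Real.norm_eq_abs] at h1
  have h2 : q (∑ b ∈ t, y b) ≤ ∑ b ∈ t, q (y b) :=
    Finset.le_sum_of_subadditive q (map_zero q).le (map_add_le_add q) t y
  exact lt_of_le_of_lt (h2.trans (le_abs_self _)) h1

omit [IsPolynormedSpace Y] in
lemma seminorm_tsum_le [T2Space Y] (y : ℤ → Y) (hy : Summable y) (q : Seminorm ℂ Y) (hq : Continuous q)
    (c : ℤ → ℝ) (hc : Summable c) (hyc : ∀ n, q (y n) ≤ c n) : q (∑' n, y n) ≤ ∑' n, c n := by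
  have h1 : Tendsto (fun s : Finset ℤ => q (∑ n ∈ s, y n)) atTop (𝓝 (q (∑' n, y n))) :=
    (hq.tendsto _).comp hy.hasSum
  refine le_of_tendsto' h1 fun s => ?_
  have h2 : q (∑ b ∈ s, y b) ≤ ∑ b ∈ s, q (y b) :=
    Finset.le_sum_of_subadditive q (map_zero q).le (map_add_le_add q) s y
  refine h2.trans ((Finset.sum_le_sum fun i _ => hyc i).trans ?_)
  refine hc.sum_le_tsum s fun i _ => (apply_nonneg q _).trans (hyc i)

end Gen

section Sup

variable {α : Type*} [TopologicalSpace α] {B : Type*} [NormedAddCommGroup B] [NormedSpace ℂ B]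
variable {X : Type*} [AddCommGroup X] [Module ℂ X] [TopologicalSpace X]

lemma nhds_sup {N : Set C(α, B)} (hN : N ∈ 𝓝 (0 : C(α, B))) :
    ∃ K : Set α, IsCompact K ∧ ∃ ε : ℝ, 0 < ε ∧ ∀ f : C(α, B), (∀ x ∈ K, ‖f x‖ < ε) → f ∈ N := by
  have hb := (Metric.nhds_basis_ball (x := (0 : B))).nhds_continuousMapConst (X := α)
  have h0 : ContinuousMap.const α (0 : B) = 0 := rfl
  rw [h0] at hb
  obtain ⟨⟨K, ε⟩, ⟨hK, hε⟩, hs⟩ := hb.mem_iff.1 hN
  refine ⟨K, hK, ε, hε, fun f hf => hs fun x hx => ?_⟩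
  rw [Metric.mem_ball, dist_zero_right]
  exact hf x hx

lemma sup_nhds {K : Set α} (hK : IsCompact K) {ε : ℝ} (hε : 0 < ε) :
    {f : C(α, B) | ∀ x ∈ K, ‖f x‖ < ε} ∈ 𝓝 (0 : C(α, B)) := by
  have hb := (Metric.nhds_basis_ball (x := (0 : B))).nhds_continuousMapConst (X := α)
  have h0 : ContinuousMap.const α (0 : B) = 0 := rfl
  rw [h0] at hb
  refine hb.mem_iff.2 ⟨⟨K, ε⟩, ⟨hK, hε⟩, fun f hf x hx => ?_⟩
  have := hf hx
  rwa [Metric.mem_ball, dist_zero_right] at this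

lemma nhds_sup' (ι : X →ₗ[ℂ] C(α, B)) (hι : Topology.IsInducing ι) {N : Set X} (hN : N ∈ 𝓝 (0 : X)) :
    ∃ K : Set α, IsCompact K ∧ ∃ ε : ℝ, 0 < ε ∧ ∀ f : X, (∀ x ∈ K, ‖ι f x‖ < ε) → f ∈ N := by
  rw [hι.nhds_eq_comap, map_zero, Filter.mem_comap] at hN
  obtain ⟨N', hN', hs⟩ := hN
  obtain ⟨K, hK, ε, hε, h⟩ := nhds_sup hN'
  exact ⟨K, hK, ε, hε, fun f hf => hs (h _ hf)⟩

lemma seminorm_sup (ι : X →ₗ[ℂ] C(α, B)) (hι : Topology.IsInducing ι) (q : Seminorm ℂ X)
    (hq : Continuous q) : ∃ K : Set α, IsCompact K ∧ ∃ C : ℝ, 0 ≤ C ∧ ∀ (f : X) (M : ℝ), 0 ≤ M →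
      (∀ x ∈ K, ‖ι f x‖ ≤ M) → q f ≤ C * M := by
  have h1 : {f : X | q f < 1} ∈ 𝓝 (0 : X) := by
    have : {f : X | q f < 1} = q ⁻¹' Set.Iio 1 := rfl
    rw [this]
    exact hq.continuousAt.preimage_mem_nhds (by rw [map_zero]; exact Iio_mem_nhds one_pos)
  obtain ⟨K, hK, ε, hε, h⟩ := nhds_sup' ι hι h1
  refine ⟨K, hK, 2 / ε, by positivity, fun f M hM hf => ?_⟩
  have key : ∀ s : ℝ, M < s → q f ≤ 2 / ε * s := by
    intro s hs
    have hs0 : 0 < s := lt_of_le_of_lt hM hs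
    have h2 : q (((ε / (2 * s) : ℝ) : ℂ) • f) < 1 := by
      apply h
      intro x hx
      rw [map_smul, ContinuousMap.smul_apply, norm_smul, Complex.norm_real,
        Real.norm_of_nonneg (by positivity)]
      calc ε / (2 * s) * ‖ι f x‖ ≤ ε / (2 * s) * M := by gcongr; exact hf x hx
        _ ≤ ε / (2 * s) * s := by gcongr
        _ = ε / 2 := by field_simp
        _ < ε := by linarith
    rw [map_smul_eq_mul, Complex.norm_real, Real.norm_of_nonneg (by positivity)] at h2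
    have h3 : q f < 2 / ε * s := by
      rw [div_mul_eq_mul_div, div_lt_one (by positivity)] at h2
      rw [div_mul_eq_mul_div, lt_div_iff₀ hε]
      linarith
    exact h3.le
  refine le_of_forall_pos_le_add fun δ hδ => ?_
  have h4 := key (M + δ * ε / 2) (by
    have : 0 < δ * ε / 2 := by positivity
    linarith)
  calc q f ≤ 2 / ε * (M + δ * ε / 2) := h4
    _ = 2 / ε * M + δ := by field_simp

end Sup

section Coord

/-- Integer powers of the coordinate as elements of `O(U0)`. -/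
def wz (n : ℤ) : OO U0 :=
  ⟨⟨fun z => (z : ℂ) ^ n, by
    rw [continuous_iff_continuousAt]
    intro z
    exact (continuousAt_zpow₀ _ n (Or.inl z.2)).comp continuous_subtype_val.continuousAt⟩, by
    refine isHolo_of_diff U0_open _ (fun z => z ^ n) ?_ (fun z => rfl)
    intro z hz
    exact (differentiableAt_zpow.2 (Or.inl hz)).differentiableWithinAt⟩

lemma wz_apply (n : ℤ) (z : U0) : (wz n : C(U0, ℂ)) z = (z : ℂ) ^ n := rfl

lemma wz_expo (n : ℤ) (z : ℂ) : (wz n : C(U0, ℂ)) (expo z) = ee n z := by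
  rw [wz_apply]
  show (ee 1 z) ^ n = ee n z
  unfold ee
  rw [← Complex.exp_int_mul]
  congr 1
  push_cast
  ring

lemma wz_mul (m n : ℤ) : wz m * wz n = wz (m + n) := by
  apply Subtype.ext
  ext z
  show (z : ℂ) ^ m * (z : ℂ) ^ n = (z : ℂ) ^ (m + n)
  rw [zpow_add₀ z.2]

lemma compact_bound {K : Set U0} (hK : IsCompact K) : ∃ R : ℝ, 1 ≤ R ∧ ∀ z ∈ K, ∀ n : ℤ,
    ‖(wz n : C(U0, ℂ)) z‖ ≤ R ^ n.natAbs := by
  obtain ⟨M1, h1⟩ := hK.exists_bound_of_continuousOn (f := fun z : U0 => (wz 1 : C(U0, ℂ)) z)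
    (wz 1 : C(U0, ℂ)).continuous.continuousOn
  obtain ⟨M2, h2⟩ := hK.exists_bound_of_continuousOn (f := fun z : U0 => (wz (-1) : C(U0, ℂ)) z)
    (wz (-1) : C(U0, ℂ)).continuous.continuousOn
  refine ⟨max 1 (max M1 M2), le_max_left _ _, fun z hz n => ?_⟩
  have h1' := h1 z hz
  have h2' := h2 z hz
  rw [wz_apply] at h1' h2'
  rw [wz_apply]
  rcases Int.natAbs_eq n with h | h
  · conv_lhs => rw [h]
    rw [zpow_natCast, norm_pow]
    rw [zpow_one] at h1'
    gcongr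
    exact h1'.trans ((le_max_left _ _).trans (le_max_right _ _))
  · conv_lhs => rw [h]
    rw [zpow_neg, zpow_natCast, norm_inv, norm_pow, ← inv_pow]
    rw [zpow_neg, zpow_one, norm_inv] at h2'
    gcongr
    exact h2'.trans ((le_max_right _ _).trans (le_max_right _ _))

end Coord

section Bilin

variable {Y : Type*} [AddCommGroup Y] [Module ℂ Y] [UniformSpace Y] [Module (OO U0) Y]
  [IsPolynormedModule U0 Y]

lemma joint_bound (q : Seminorm ℂ Y) (hq : Continuous q) :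
    ∃ K : Set U0, IsCompact K ∧ ∃ C : ℝ, 0 ≤ C ∧ ∃ q1 : Seminorm ℂ Y, Continuous q1 ∧
      ∀ (h : OO U0) (M : ℝ), 0 ≤ M → (∀ x ∈ K, ‖(h : C(U0, ℂ)) x‖ ≤ M) → ∀ y : Y,
        q (h • y) ≤ C * M * q1 y := by
  have h1 : {p : OO U0 × Y | q (p.1 • p.2) < 1} ∈ 𝓝 (0 : OO U0 × Y) := by
    have hc : Continuous fun p : OO U0 × Y => q (p.1 • p.2) := hq.comp continuous_smul
    have : {p : OO U0 × Y | q (p.1 • p.2) < 1} = (fun p : OO U0 × Y => q (p.1 • p.2)) ⁻¹' Set.Iio 1 := rfl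
    rw [this]
    refine hc.continuousAt.preimage_mem_nhds ?_
    simp only [Prod.fst_zero, Prod.snd_zero, smul_zero, map_zero]
    exact Iio_mem_nhds one_pos
  rw [← Prod.mk_zero_zero, nhds_prod_eq, Filter.mem_prod_iff] at h1
  obtain ⟨A, hA, W, hW, hAW⟩ := h1
  obtain ⟨q1, hq1, hq1W⟩ := exists_seminorm hW
  obtain ⟨K, hK, ε, hε, hKA⟩ := nhds_sup' (X := OO U0) (OO U0).val.toLinearMap Topology.IsInducing.subtypeVal hA
  refine ⟨K, hK, 2 / ε, by positivity, q1, hq1, fun h M hM hh y => ?_⟩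
  have key : ∀ s t : ℝ, M < s → q1 y < t → q (h • y) ≤ 2 / ε * s * t := by
    intro s t hs ht
    have hs0 : 0 < s := lt_of_le_of_lt hM hs
    have ht0 : 0 < t := lt_of_le_of_lt (apply_nonneg q1 y) ht
    have h2 : ((ε / (2 * s) : ℝ) : ℂ) • h ∈ A := by
      apply hKA
      intro x hx
      have h3 : ((OO U0).val.toLinearMap (((ε / (2 * s) : ℝ) : ℂ) • h)) x
          = ((ε / (2 * s) : ℝ) : ℂ) * (h : C(U0, ℂ)) x := rfl
      rw [h3, norm_mul, Complex.norm_real, Real.norm_of_nonneg (by positivity)]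
      calc ε / (2 * s) * ‖(h : C(U0, ℂ)) x‖ ≤ ε / (2 * s) * M := by gcongr; exact hh x hx
        _ ≤ ε / (2 * s) * s := by gcongr
        _ = ε / 2 := by field_simp
        _ < ε := by linarith
    have h3 : ((t⁻¹ : ℝ) : ℂ) • y ∈ W := by
      apply hq1W
      rw [map_smul_eq_mul, Complex.norm_real, Real.norm_of_nonneg (by positivity),
        inv_mul_lt_iff₀ ht0, mul_one]
      exact ht
    have h4 : q ((((ε / (2 * s) : ℝ) : ℂ) • h) • (((t⁻¹ : ℝ) : ℂ) • y)) < 1 :=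
      hAW (show (_, _) ∈ A ×ˢ W from ⟨h2, h3⟩)
    have h5 : (((ε / (2 * s) : ℝ) : ℂ) • h) • (((t⁻¹ : ℝ) : ℂ) • y)
        = ((ε / (2 * s) * t⁻¹ : ℝ) : ℂ) • (h • y) := by
      rw [smul_assoc, ← algebraMap_smul (OO U0) ((t⁻¹ : ℝ) : ℂ) y, smul_smul h,
        ← Algebra.commutes, mul_smul, algebraMap_smul, smul_smul, ← Complex.ofReal_mul]
    rw [h5, map_smul_eq_mul, Complex.norm_real, Real.norm_of_nonneg (by positivity)] at h4
    have h6 : q (h • y) < 2 / ε * s * t := by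
      have h7 : ε / (2 * s) * t⁻¹ * q (h • y) = q (h • y) / (2 / ε * s * t) := by
        field_simp
      rw [h7, div_lt_one (by positivity)] at h4
      exact h4
    exact h6.le
  have hlim : Tendsto (fun δ : ℝ => 2 / ε * (M + δ) * (q1 y + δ)) (𝓝[>] 0) (𝓝 (2 / ε * M * q1 y)) := by
    have : Continuous fun δ : ℝ => 2 / ε * (M + δ) * (q1 y + δ) := by fun_prop
    have h2 := this.tendsto 0
    simp only [add_zero] at h2
    exact h2.mono_left nhdsWithin_le_nhds
  refine ge_of_tendsto hlim ?_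
  filter_upwards [self_mem_nhdsWithin] with δ hδ
  have hδ' : (0:ℝ) < δ := hδ
  exact key _ _ (by linarith) (by linarith)

end Bilin

end

end Pool.Agent.Helper148.PM
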