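import Mathlib
import Pool.Agent.Helper148.Semi

set_option autoImplicit false

namespace Pool.Agent.Helper148.PM

open scoped Topology
open Filter

noncomputable section

variable {F : Type*} [NormedAddCommGroup F] [NormedSpace ℂ F] [CompleteSpace F]
variable {T : (F →L[ℂ] F)ˣ}

/-- The periodic function attached to a section. -/
def gz (T : (F →L[ℂ] F)ˣ) (f : ℂ → F) (ζ z : ℂ) : F := Th T (ζ - z) (f z)

lemma gz_per (f : XT T) (ζ z : ℂ) : gz T (f : C(ℂ, F)) ζ (z + 1) = gz T (f : C(ℂ, F)) ζ z := by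
  unfold gz
  rw [f.2.2 z]
  have h1 : Th T (ζ - (z + 1)) ((T : F →L[ℂ] F) ((f : C(ℂ, F)) z))
      = (Th T ((ζ - z) - 1) * (T : F →L[ℂ] F)) ((f : C(ℂ, F)) z) := by
    rw [show ζ - (z + 1) = (ζ - z) - 1 by ring]
    rfl
  rw [h1, Th_sub_one]

lemma gz_diff (f : XT T) (ζ : ℂ) : Differentiable ℂ (gz T (f : C(ℂ, F)) ζ) := by
  unfold gz
  have h1 : Differentiable ℂ (fun z => Th T (ζ - z)) :=
    (Th_diff T).comp ((differentiable_const ζ).sub differentiable_id)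
  exact h1.clm_apply f.2.1

lemma gz_quasi (f : XT T) (ζ z : ℂ) :
    gz T (f : C(ℂ, F)) (ζ + 1) z = (T : F →L[ℂ] F) (gz T (f : C(ℂ, F)) ζ z) := by
  unfold gz
  rw [show ζ + 1 - z = (ζ - z) + 1 by ring, Th_add_one]
  rfl

lemma gz_param (f : XT T) (n : ℤ) :
    Differentiable ℂ (fun ζ => cfn (gz T (f : C(ℂ, F)) ζ) n) := by
  unfold cfn
  refine holo_param (fun x ζ => ee (-n) x • gz T (f : C(ℂ, F)) ζ x) ?_ ?_
  · have h1 := ee_cont (-n)
    have h2 := (Th_diff T).continuous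
    have h3 := (f : C(ℂ, F)).continuous
    unfold gz
    fun_prop
  · intro x
    unfold gz
    have h1 : Differentiable ℂ (fun ζ : ℂ => Th T (ζ - x)) :=
      (Th_diff T).comp (differentiable_id.sub (differentiable_const _))
    exact (h1.clm_apply (differentiable_const _)).const_smul _

/-- The coefficient operators on sections. -/
def Fn (n : ℤ) (f : XT T) : XT T :=
  ⟨⟨fun ζ => cfn (gz T (f : C(ℂ, F)) ζ) n, (gz_param f n).continuous⟩, gz_param f n, by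
    intro ζ
    show cfn (gz T (f : C(ℂ, F)) (ζ + 1)) n = (T : F →L[ℂ] F) (cfn (gz T (f : C(ℂ, F)) ζ) n)
    unfold cfn
    rw [← ContinuousLinearMap.intervalIntegral_comp_comm]
    · congr 1
      ext x
      rw [gz_quasi, map_smul]
    · apply Continuous.intervalIntegrable
      have h1 := ee_cont (-n)
      have h2 := (gz_diff f ζ).continuous
      fun_prop⟩

lemma Fn_apply (n : ℤ) (f : XT T) (ζ : ℂ) :
    ((Fn n f : XT T) : C(ℂ, F)) ζ = cfn (gz T (f : C(ℂ, F)) ζ) n := rfl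

lemma int_aux (f : XT T) (ζ : ℂ) (n : ℤ) :
    IntervalIntegrable (fun x : ℝ => ee (-n) x • gz T (f : C(ℂ, F)) ζ x) MeasureTheory.volume 0 1 := by
  apply Continuous.intervalIntegrable
  have h1 := ee_cont (-n)
  have h2 := (gz_diff f ζ).continuous
  fun_prop

lemma Fn_add (n : ℤ) (f g : XT T) : Fn n (f + g) = Fn n f + Fn n g := by
  apply Subtype.ext
  ext ζ
  show cfn (gz T ((f + g : XT T) : C(ℂ, F)) ζ) n =
    cfn (gz T (f : C(ℂ, F)) ζ) n + cfn (gz T (g : C(ℂ, F)) ζ) n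
  unfold cfn
  rw [← intervalIntegral.integral_add (int_aux f ζ n) (int_aux g ζ n)]
  congr 1
  ext x
  rw [← smul_add]
  congr 1
  exact map_add (Th T (ζ - x)) _ _

lemma Fn_smul (n : ℤ) (c : ℂ) (f : XT T) : Fn n (c • f) = c • Fn n f := by
  apply Subtype.ext
  ext ζ
  show cfn (gz T ((c • f : XT T) : C(ℂ, F)) ζ) n = c • cfn (gz T (f : C(ℂ, F)) ζ) n
  unfold cfn
  rw [← intervalIntegral.integral_smul]
  congr 1
  ext x
  rw [smul_comm]
  congr 1
  exact map_smul (Th T (ζ - x)) _ _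

lemma Fn_wz (n m : ℤ) (f : XT T) : Fn n (wz m • f) = Fn (n - m) f := by
  apply Subtype.ext
  ext ζ
  show cfn (gz T ((wz m • f : XT T) : C(ℂ, F)) ζ) n = cfn (gz T (f : C(ℂ, F)) ζ) (n - m)
  unfold cfn
  congr 1
  ext x
  have h1 : gz T ((wz m • f : XT T) : C(ℂ, F)) ζ x = ee m x • gz T (f : C(ℂ, F)) ζ x := by
    unfold gz
    rw [XT_smul_apply, wz_expo, map_smul]
  rw [h1, smul_smul, ee_mul]
  congr 2
  ring

lemma Fn_hasSum (f : XT T) (ζ z : ℂ) :
    HasSum (fun n : ℤ => ee n z • ((Fn n f : XT T) : C(ℂ, F)) ζ) (Th T (ζ - z) ((f : C(ℂ, F)) z)) :=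
  inversion (gz T (f : C(ℂ, F)) ζ) (gz_diff f ζ) (gz_per f ζ) z

/-- The basic decay estimate. -/
lemma Fn_bound (K : Set ℂ) (hK : IsCompact K) (R : ℝ) (hR : 0 ≤ R) :
    ∃ K' : Set ℂ, IsCompact K' ∧ ∃ C : ℝ, 0 ≤ C ∧ ∀ (f : XT T) (M : ℝ), 0 ≤ M →
      (∀ z ∈ K', ‖(f : C(ℂ, F)) z‖ ≤ M) → ∀ n : ℤ, ∀ ζ ∈ K,
      ‖((Fn n f : XT T) : C(ℂ, F)) ζ‖ ≤ C * M * (Real.exp (-(2 * Real.pi * R))) ^ n.natAbs := by
  set K' : Set ℂ := ((fun p : ℝ × ℝ => (p.1 : ℂ) + p.2 * Complex.I) ''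
      (Set.Icc (0:ℝ) 1 ×ˢ Set.Icc (-R) R)) with hK'
  have hc : IsCompact K' := by
    refine (isCompact_Icc.prod isCompact_Icc).image ?_
    fun_prop
  have hcc : IsCompact (K ×ˢ K') := hK.prod hc
  have hcont : Continuous (fun p : ℂ × ℂ => Th T (p.1 - p.2)) :=
    (Th_diff T).continuous.comp (continuous_fst.sub continuous_snd)
  obtain ⟨C, hC⟩ := hcc.exists_bound_of_continuousOn hcont.continuousOn
  refine ⟨K', hc, max C 0, le_max_right _ _, fun f M hM hf n ζ hζ => ?_⟩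
  refine cfn_bound (gz T (f : C(ℂ, F)) ζ) (gz_diff f ζ) (gz_per f ζ) R (max C 0 * M) hR ?_ n
  intro x y hx hy
  have hmem : (x : ℂ) + y * Complex.I ∈ K' := ⟨(x, y), ⟨hx, abs_le.1 hy⟩, rfl⟩
  unfold gz
  refine ((Th T _).le_opNorm _).trans ?_
  gcongr
  · exact (hC (ζ, (x : ℂ) + y * Complex.I) ⟨hζ, hmem⟩).trans (le_max_left _ _)
  · exact hf _ hmem

section Proj

variable {Y : Type*} [AddCommGroup Y] [Module ℂ Y] [UniformSpace Y] [Module (OO U0) Y]
  [IsPolynormedModule U0 Y]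

/-- The inclusion of sections into continuous functions. -/
abbrev XTi (T : (F →L[ℂ] F)ˣ) : XT T →ₗ[ℂ] C(ℂ, F) := (XT T).subtype

lemma key_bound (ρ : XT T →L[ℂ] Y) (q : Seminorm ℂ Y) (hq : Continuous q) :
    ∃ K : Set ℂ, IsCompact K ∧ ∃ C : ℝ, 0 ≤ C ∧ ∀ (f : XT T) (M : ℝ), 0 ≤ M →
      (∀ z ∈ K, ‖(f : C(ℂ, F)) z‖ ≤ M) → ∀ n : ℤ,
      q (wz n • ρ (Fn n f)) ≤ C * M * (1 / 2) ^ n.natAbs := by
  obtain ⟨K0, hK0, C0, hC0, q1, hq1, hjoint⟩ := joint_bound q hq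
  obtain ⟨R0, hR0, hw⟩ := compact_bound hK0
  have hq2 : Continuous (q1.comp ρ.toLinearMap) := hq1.comp ρ.continuous
  obtain ⟨K1, hK1, C1, hC1, h1⟩ := seminorm_sup (XTi T) Topology.IsInducing.subtypeVal
    (q1.comp ρ.toLinearMap) hq2
  set R : ℝ := Real.log (2 * R0) / (2 * Real.pi) with hR
  have hRpos : 0 ≤ R := by
    have : 0 ≤ Real.log (2 * R0) := Real.log_nonneg (by linarith)
    have := Real.pi_pos
    positivity
  have hexp : Real.exp (-(2 * Real.pi * R)) = (2 * R0)⁻¹ := by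
    have : 2 * Real.pi * R = Real.log (2 * R0) := by
      rw [hR]; field_simp
    rw [this, Real.exp_neg, Real.exp_log (by linarith)]
  obtain ⟨K2, hK2, C2, hC2, h2⟩ := Fn_bound (T := T) K1 hK1 R hRpos
  refine ⟨K2, hK2, C0 * C1 * C2, by positivity, fun f M hM hf n => ?_⟩
  have h3 := hjoint (wz n) (R0 ^ n.natAbs) (by positivity) (fun x hx => hw x hx n) (ρ (Fn n f))
  have h4 : q1 (ρ (Fn n f)) ≤ C1 * (C2 * M * ((2 * R0)⁻¹) ^ n.natAbs) := by
    refine h1 (Fn n f) _ (by positivity) (fun x hx => ?_)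
    have := h2 f M hM hf n x hx
    rw [hexp] at this
    exact this
  calc q (wz n • ρ (Fn n f)) ≤ C0 * R0 ^ n.natAbs * q1 (ρ (Fn n f)) := h3
    _ ≤ C0 * R0 ^ n.natAbs * (C1 * (C2 * M * ((2 * R0)⁻¹) ^ n.natAbs)) := by gcongr
    _ = C0 * C1 * C2 * M * (R0 * (2 * R0)⁻¹) ^ n.natAbs := by rw [mul_pow]; ring
    _ = _ := by
      congr 2
      field_simp

lemma half_summable (c : ℝ) : Summable fun n : ℤ => c * (1 / 2 : ℝ) ^ n.natAbs := by
  refine Summable.mul_left _ ?_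
  have hg : Summable fun n : ℕ => (1 / 2 : ℝ) ^ n := summable_geometric_two
  refine Summable.of_nat_of_neg ?_ ?_
  · simpa using hg
  · simpa using hg

lemma exists_sup (K : Set ℂ) (hK : IsCompact K) (f : C(ℂ, F)) :
    ∃ M : ℝ, 0 ≤ M ∧ ∀ z ∈ K, ‖f z‖ ≤ M := by
  obtain ⟨M, hM⟩ := hK.exists_bound_of_continuousOn f.continuous.continuousOn
  exact ⟨max M 0, le_max_right _ _, fun z hz => (hM z hz).trans (le_max_left _ _)⟩

lemma sig_summable (ρ : XT T →L[ℂ] Y) (f : XT T) : Summable fun n : ℤ => wz n • ρ (Fn n f) := by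
  refine summable_of_seminorms _ fun q hq => ?_
  obtain ⟨K, hK, C, hC, h⟩ := key_bound ρ q hq
  obtain ⟨M, hM, hMf⟩ := exists_sup K hK (f : C(ℂ, F))
  exact Summable.of_nonneg_of_le (fun n => apply_nonneg q _) (fun n => h f M hM hMf n)
    (half_summable _)

/-- The reproducing formula. -/
lemma repro (f : XT T) : HasSum (fun n : ℤ => wz n • Fn n f) f := by
  have hs := sig_summable (ContinuousLinearMap.id ℂ (XT T)) f
  have h : ∑' n : ℤ, wz n • Fn n f = f := by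
    apply Subtype.ext
    ext ζ
    have hc : Continuous fun g : XT T => (g : C(ℂ, F)) ζ :=
      (continuous_eval_const ζ).comp continuous_subtype_val
    let ev : XT T →+ F :=
      { toFun := fun g => (g : C(ℂ, F)) ζ, map_zero' := rfl, map_add' := fun _ _ => rfl }
    have h1 := hs.hasSum.map ev hc
    have h2 := Fn_hasSum f ζ ζ
    rw [sub_self, Th_zero] at h2
    refine h1.unique ?_
    refine h2.congr_fun ?_ 
    intro n
    show (wz n : C(U0, ℂ)) (expo ζ) • ((Fn n f : XT T) : C(ℂ, F)) ζ = _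
    rw [wz_expo]
  have := hs.hasSum
  rw [show (∑' n : ℤ, wz n • (ContinuousLinearMap.id ℂ (XT T)) (Fn n f)) = f from h] at this
  exact this

end Proj

end

end Pool.Agent.Helper148.PM
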