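import Mathlib
import Pool.Agent.Helper148.Key

set_option autoImplicit false

namespace Pool.Agent.Helper148.PM

open scoped Topology
open Filter

noncomputable section

section Laurent

variable {B : Type*} [NormedAddCommGroup B] [NormedSpace ℂ B] [CompleteSpace B]

omit [CompleteSpace B] in
lemma holo_extB {U : Set ℂ} (hU : IsOpen U) (f : C(U, B)) (hf : IsHolo f) :
    ∃ g : ℂ → B, DifferentiableOn ℂ g U ∧ ∀ z : U, g z = f z := by
  classical
  refine ⟨fun w => if h : w ∈ U then f ⟨w, h⟩ else 0, ?_, ?_⟩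
  · intro w hw
    obtain ⟨d, hd⟩ := hf ⟨w, hw⟩
    have h2 : HasDerivAt (fun w => if h : w ∈ U then f ⟨w, h⟩ else 0) d w := by
      rw [hasDerivAt_iff_tendsto_slope]
      have h3 := hU.isOpenEmbedding_subtypeVal.map_nhdsWithin_preimage_eq {w}ᶜ ⟨w, hw⟩
      have h4 : (Subtype.val ⁻¹' {w}ᶜ : Set U) = {⟨w, hw⟩}ᶜ := by
        ext y
        simp [Subtype.ext_iff]
      rw [h4] at h3
      have h5 : 𝓝[≠] w = map (Subtype.val : U → ℂ) (𝓝[≠] ⟨w, hw⟩) := h3.symm
      rw [h5, tendsto_map'_iff]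
      refine hd.congr fun y => ?_
      simp only [Function.comp_apply, slope_def_module, hw, dif_pos, y.2]
    exact h2.differentiableAt.differentiableWithinAt
  · intro z
    simp

omit [CompleteSpace B] in
lemma pull_diffB (f : C(U0, B)) (hf : IsHolo f) : Differentiable ℂ (fun z => f (expo z)) := by
  obtain ⟨g, hg, hgf⟩ := holo_extB U0_open f hf
  have h1 : (fun z => f (expo z)) = fun z => g (ee 1 z) := by
    ext z
    rw [← hgf]
    rfl
  rw [h1]
  intro z
  have h2 : DifferentiableAt ℂ g (ee 1 z) :=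
    (hg _ (Complex.exp_ne_zero _)).differentiableAt (U0_open.mem_nhds (Complex.exp_ne_zero _))
  exact h2.comp z (ee_diff 1 z)

instance : LocallyCompactSpace U0 := U0_open.locallyCompactSpace

instance : IsPolynormedSpace C(U0, B) where
  uniformContinuous_sub := by
    have : IsUniformAddGroup C(U0, B) := inferInstance
    exact this.uniformContinuous_sub
  continuous_smul := by
    have : ContinuousSMul ℂ C(U0, B) := inferInstance
    exact this.continuous_smul
  convex_basis := by
    have : LocallyConvexSpace ℝ C(U0, B) := inferInstance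
    exact this.convex_basis
  t2 := by
    have : T2Space C(U0, B) := inferInstance
    exact this.t2
  complete := by
    have : CompleteSpace C(U0, B) := inferInstance
    intro f hf
    exact this.complete hf

/-- Laurent coefficients. -/
def lc (g : C(U0, B)) (n : ℤ) : B := cfn (fun z => g (expo z)) n

lemma lc_bound (g : C(U0, B)) (hg : IsHolo g) (R : ℝ) (hR : 0 ≤ R) : ∃ M : ℝ, 0 ≤ M ∧ ∀ n : ℤ,
    ‖lc g n‖ ≤ M * (Real.exp (-(2 * Real.pi * R))) ^ n.natAbs := by
  have hc : IsCompact ((fun p : ℝ × ℝ => (p.1 : ℂ) + p.2 * Complex.I) ''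
      (Set.Icc (0:ℝ) 1 ×ˢ Set.Icc (-R) R)) := by
    refine (isCompact_Icc.prod isCompact_Icc).image ?_
    fun_prop
  obtain ⟨M, hM⟩ := hc.exists_bound_of_continuousOn (pull_diffB g hg).continuous.continuousOn
  refine ⟨max M 0, le_max_right _ _, fun n => ?_⟩
  refine cfn_bound _ (pull_diffB g hg) (fun z => by rw [expo_add_one]) R _ hR ?_ n
  intro x y hx hy
  exact (hM _ ⟨(x, y), ⟨hx, abs_le.1 hy⟩, rfl⟩).trans (le_max_left _ _)

/-- The Laurent expansion, in the compact-open topology. -/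
lemma laurent (g : C(U0, B)) (hg : IsHolo g) :
    HasSum (fun n : ℤ => (wz n : C(U0, ℂ)) • ContinuousMap.const U0 (lc g n)) g := by
  have hs : Summable (fun n : ℤ => (wz n : C(U0, ℂ)) • ContinuousMap.const U0 (lc g n)) := by
    refine summable_of_seminorms _ fun q hq => ?_
    obtain ⟨K, hK, C, hC, h⟩ := seminorm_sup (LinearMap.id : C(U0, B) →ₗ[ℂ] C(U0, B))
      Topology.IsInducing.id q hq
    obtain ⟨R0, hR0, hw⟩ := compact_bound hK
    set R : ℝ := Real.log (2 * R0) / (2 * Real.pi) with hR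
    have hRpos : 0 ≤ R := by
      have : 0 ≤ Real.log (2 * R0) := Real.log_nonneg (by linarith)
      have := Real.pi_pos
      positivity
    have hexp : Real.exp (-(2 * Real.pi * R)) = (2 * R0)⁻¹ := by
      have : 2 * Real.pi * R = Real.log (2 * R0) := by
        rw [hR]; field_simp
      rw [this, Real.exp_neg, Real.exp_log (by linarith)]
    obtain ⟨M, hM0, hM⟩ := lc_bound g hg R hRpos
    refine Summable.of_nonneg_of_le (fun n => apply_nonneg q _) (fun n => ?_) (half_summable (C * M))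
    have h1 := h ((wz n : C(U0, ℂ)) • ContinuousMap.const U0 (lc g n))
      (R0 ^ n.natAbs * (M * ((2 * R0)⁻¹) ^ n.natAbs)) (by positivity) (fun x hx => by
        show ‖(wz n : C(U0, ℂ)) x • lc g n‖ ≤ _
        rw [norm_smul]
        have h2 := hM n
        rw [hexp] at h2
        gcongr
        exact hw x hx n)
    refine h1.trans (le_of_eq ?_)
    have h3 : R0 ^ n.natAbs * (M * ((2 * R0)⁻¹) ^ n.natAbs) = M * (R0 * (2 * R0)⁻¹) ^ n.natAbs := by
      rw [mul_pow]; ring
    rw [h3, mul_assoc]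
    congr 3
    field_simp
  have h : ∑' n : ℤ, (wz n : C(U0, ℂ)) • ContinuousMap.const U0 (lc g n) = g := by
    ext w
    obtain ⟨z, rfl⟩ := expo_surj w
    have hc : Continuous fun k : C(U0, B) => k (expo z) := continuous_eval_const _
    let ev : C(U0, B) →+ B :=
      { toFun := fun k => k (expo z), map_zero' := rfl, map_add' := fun _ _ => rfl }
    have h1 := hs.hasSum.map ev hc
    have h2 := inversion (fun z => g (expo z)) (pull_diffB g hg) (fun z => by rw [expo_add_one]) z
    refine h1.unique ?_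
    refine h2.congr_fun ?_
    intro n
    show (wz n : C(U0, ℂ)) (expo z) • lc g n = _
    rw [wz_expo]
    rfl
  rw [← h]
  rw [h]
  have := hs.hasSum
  rwa [h] at this

/-- Laurent expansion in the algebra `O(U0)`. -/
lemma laurent_alg (h : OO U0) : HasSum (fun n : ℤ => (lc (h : C(U0, ℂ)) n) • wz n) h := by
  have h1 := laurent (h : C(U0, ℂ)) h.2
  have h2 : Topology.IsInducing ((OO U0).val : OO U0 → C(U0, ℂ)) := Topology.IsInducing.subtypeVal
  rw [← h2.hasSum_iff]
  refine h1.congr_fun ?_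
  intro n
  ext w
  show lc (h : C(U0, ℂ)) n * (wz n : C(U0, ℂ)) w = (wz n : C(U0, ℂ)) w * lc (h : C(U0, ℂ)) n
  ring

end Laurent

section Proj

variable {F : Type*} [NormedAddCommGroup F] [NormedSpace ℂ F] [CompleteSpace F]
variable {T : (F →L[ℂ] F)ˣ}
variable {Y : Type*} [AddCommGroup Y] [Module ℂ Y] [UniformSpace Y] [Module (OO U0) Y]
  [IsPolynormedModule U0 Y]

/-- The splitting. -/
def sig (ρ : XT T →L[ℂ] Y) (f : XT T) : Y := ∑' n : ℤ, wz n • ρ (Fn n f)

lemma sig_add (ρ : XT T →L[ℂ] Y) (f g : XT T) : sig ρ (f + g) = sig ρ f + sig ρ g := by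
  unfold sig
  rw [← (sig_summable ρ f).tsum_add (sig_summable ρ g)]
  refine tsum_congr fun n => ?_
  rw [Fn_add, map_add, smul_add]

lemma smul_comm' (c : ℂ) (h : OO U0) (y : Y) : h • (c • y) = c • (h • y) := by
  rw [← algebraMap_smul (OO U0) c y, ← algebraMap_smul (OO U0) c (h • y), smul_smul, smul_smul,
    Algebra.commutes]

lemma sig_smul (ρ : XT T →L[ℂ] Y) (c : ℂ) (f : XT T) : sig ρ (c • f) = c • sig ρ f := by
  unfold sig
  rw [← (sig_summable ρ f).tsum_const_smul c]
  refine tsum_congr fun n => ?_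
  rw [Fn_smul, map_smul, smul_comm']

lemma sig_wz (ρ : XT T →L[ℂ] Y) (m : ℤ) (f : XT T) : sig ρ (wz m • f) = wz m • sig ρ f := by
  unfold sig
  rw [← (sig_summable ρ f).tsum_const_smul (wz m), ← (Equiv.addRight m).tsum_eq]
  refine tsum_congr fun n => ?_
  rw [Fn_wz, smul_smul, wz_mul]
  have h1 : (Equiv.addRight m) n = n + m := rfl
  rw [h1, add_sub_cancel_right, add_comm]

lemma sig_cont (ρ : XT T →L[ℂ] Y) : Continuous (sig ρ) := by
  let σ : XT T →+ Y := ⟨⟨sig ρ, by
    have := sig_smul ρ 0 (0 : XT T)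
    rwa [zero_smul, zero_smul] at this⟩, sig_add ρ⟩
  have : Continuous σ := by
    refine continuous_of_continuousAt_zero σ ?_
    rw [ContinuousAt, map_zero]
    intro e he
    obtain ⟨q, hq, hqe⟩ := exists_seminorm he
    obtain ⟨K, hK, C, hC, h⟩ := key_bound ρ q hq
    set S : ℝ := ∑' n : ℤ, (1 / 2 : ℝ) ^ n.natAbs with hS
    have hsm : Summable fun n : ℤ => (1 / 2 : ℝ) ^ n.natAbs := by
      simpa using half_summable 1
    have hS0 : 0 ≤ S := tsum_nonneg fun n => by positivity
    have hδ : 0 < 1 / ((C + 1) * (S + 1)) := by positivity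
    have hN : {f : XT T | ∀ x ∈ K, ‖(f : C(ℂ, F)) x‖ < 1 / ((C + 1) * (S + 1))} ∈ 𝓝 (0 : XT T) := by
      have h1 : {f : C(ℂ, F) | ∀ x ∈ K, ‖f x‖ < 1 / ((C + 1) * (S + 1))} ∈
          𝓝 (((0 : XT T) : XT T) : C(ℂ, F)) := sup_nhds (B := F) hK hδ
      exact continuous_subtype_val.continuousAt.preimage_mem_nhds h1
    rw [Filter.mem_map]
    filter_upwards [hN] with f hf
    apply hqe
    have h2 : q (sig ρ f) ≤ ∑' n : ℤ, C * (1 / ((C + 1) * (S + 1))) * (1 / 2 : ℝ) ^ n.natAbs :=
      seminorm_tsum_le _ (sig_summable ρ f) q hq _ (half_summable _)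
        (fun n => h f _ hδ.le (fun z hz => (hf z hz).le) n)
    rw [tsum_mul_left] at h2
    refine lt_of_le_of_lt h2 ?_
    rw [← hS, mul_one_div, div_mul_eq_mul_div, div_lt_one (by positivity)]
    nlinarith
  exact this

/-- The module of sections is projective. -/
theorem XT_projective (φ : Y →L[OO U0] XT T) (ρ : XT T →L[ℂ] Y) (hρ : ∀ x, φ (ρ x) = x) :
    ∃ σ : XT T →L[OO U0] Y, ∀ x, φ (σ x) = x := by
  have hsm : ∀ (h : OO U0) (f : XT T), sig ρ (h • f) = h • sig ρ f := by
    intro h f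
    have h1 := laurent_alg h
    have hc1 : Continuous fun k : OO U0 => sig ρ (k • f) :=
      (sig_cont ρ).comp (continuous_id.smul continuous_const)
    have hc2 : Continuous fun k : OO U0 => k • sig ρ f := continuous_id.smul continuous_const
    let a1 : OO U0 →+ Y := ⟨⟨fun k => sig ρ (k • f), by
      have := sig_smul ρ 0 (0 : XT T)
      rw [zero_smul, zero_smul] at this
      show sig ρ ((0 : OO U0) • f) = 0
      rw [zero_smul, this]⟩, fun k l => by
      show sig ρ ((k + l) • f) = sig ρ (k • f) + sig ρ (l • f)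
      rw [add_smul, sig_add]⟩
    let a2 : OO U0 →+ Y := ⟨⟨fun k => k • sig ρ f, zero_smul _ _⟩, fun k l => add_smul _ _ _⟩
    have e1 := h1.map a1 hc1
    have e2 := h1.map a2 hc2
    refine e1.unique ?_
    refine e2.congr_fun ?_
    intro n
    show sig ρ ((lc (h : C(U0, ℂ)) n • wz n) • f) = (lc (h : C(U0, ℂ)) n • wz n) • sig ρ f
    rw [smul_assoc, smul_assoc, sig_smul, sig_wz]
  refine ⟨⟨⟨⟨sig ρ, sig_add ρ⟩, hsm⟩, sig_cont ρ⟩, fun f => ?_⟩
  show φ (sig ρ f) = f
  have h1 := (sig_summable ρ f).hasSum.map (φ : Y →L[OO U0] XT T) φ.continuous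
  have h2 := repro f
  refine h1.unique ?_
  refine h2.congr_fun ?_
  intro n
  show φ (wz n • ρ (Fn n f)) = wz n • Fn n f
  rw [map_smul, hρ]

end Proj

end

end Pool.Agent.Helper148.PM
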