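import Mathlib
import Pool.Agent.Helper148.Proj

set_option autoImplicit false

namespace Pool.Agent.Helper148.PM

open scoped Topology
open Filter

noncomputable section

section Loc

variable {F : Type*} [NormedAddCommGroup F] [NormedSpace ℂ F] [CompleteSpace F]
variable {T : (F →L[ℂ] F)ˣ}

/-- The section through a vector. -/
def sec (T : (F →L[ℂ] F)ˣ) (z : ℂ) (v : F) : XT T :=
  ⟨⟨fun ζ => Th T (ζ - z) v, by
      have := (Th_diff T).continuous
      fun_prop⟩, by
      have h1 : Differentiable ℂ (fun ζ : ℂ => Th T (ζ - z)) :=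
        (Th_diff T).comp (differentiable_id.sub (differentiable_const _))
      exact h1.clm_apply (differentiable_const _), by
      intro ζ
      show Th T (ζ + 1 - z) v = (T : F →L[ℂ] F) (Th T (ζ - z) v)
      rw [show ζ + 1 - z = (ζ - z) + 1 by ring, Th_add_one]
      rfl⟩

lemma sec_apply (z : ℂ) (v : F) (ζ : ℂ) : ((sec T z v : XT T) : C(ℂ, F)) ζ = Th T (ζ - z) v := rfl

lemma sec_cont (z : ℂ) : Continuous (sec T z) := by
  refine Continuous.subtype_mk ?_ _
  apply ContinuousMap.continuous_of_continuous_uncurry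
  show Continuous fun p : F × ℂ => Th T (p.2 - z) p.1
  have := (Th_diff T).continuous
  fun_prop

/-- The section map as a continuous linear map. -/
def secL (T : (F →L[ℂ] F)ˣ) (z : ℂ) : F →L[ℂ] XT T where
  toFun := sec T z
  map_add' v w := by
    apply Subtype.ext
    ext ζ
    exact map_add (Th T (ζ - z)) v w
  map_smul' c v := by
    apply Subtype.ext
    ext ζ
    exact map_smul (Th T (ζ - z)) c v
  cont := sec_cont z

lemma loc_summable (x : XT T) (z : ℂ) : Summable fun n : ℤ => ee n z • Fn n x := by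
  refine summable_of_seminorms _ fun q hq => ?_
  obtain ⟨K, hK, C, hC, h⟩ := seminorm_sup (XTi T) Topology.IsInducing.subtypeVal q hq
  obtain ⟨K2, hK2, C2, hC2, h2⟩ := Fn_bound (T := T) K hK (|z.im| + 1) (by positivity)
  obtain ⟨M, hM, hMf⟩ := exists_sup K2 hK2 (x : C(ℂ, F))
  have hlt : Real.exp (-(2 * Real.pi)) ≤ 1 / 2 := by
    have h1 : (2 : ℝ) ≤ 2 * Real.pi := by nlinarith [Real.pi_gt_three]
    have h2 : Real.exp (-(2 * Real.pi)) ≤ Real.exp (-1) := Real.exp_le_exp.2 (by linarith)
    have h3 : Real.exp (-1) ≤ 1 / 2 := by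
      rw [Real.exp_neg, ← one_div]
      apply one_div_le_one_div_of_le (by norm_num)
      have := Real.add_one_le_exp (1 : ℝ)
      linarith
    exact h2.trans h3
  refine Summable.of_nonneg_of_le (fun n => apply_nonneg q _) (fun n => ?_)
    (half_summable (C * (C2 * M)))
  have h3 := h (ee n z • Fn n x) (C2 * M * (1 / 2) ^ n.natAbs) (by positivity) (fun ζ hζ => by
    show ‖ee n z • ((Fn n x : XT T) : C(ℂ, F)) ζ‖ ≤ _
    rw [norm_smul]
    have h4 := h2 x M hM hMf n ζ hζ
    have h5 := ee_norm_le n z |z.im| le_rfl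
    calc ‖ee n z‖ * ‖((Fn n x : XT T) : C(ℂ, F)) ζ‖
        ≤ Real.exp (2 * Real.pi * |z.im|) ^ n.natAbs *
          (C2 * M * (Real.exp (-(2 * Real.pi * (|z.im| + 1)))) ^ n.natAbs) := by gcongr
      _ = C2 * M * (Real.exp (-(2 * Real.pi))) ^ n.natAbs := by
        have h6 : Real.exp (2 * Real.pi * |z.im|) * Real.exp (-(2 * Real.pi * (|z.im| + 1)))
            = Real.exp (-(2 * Real.pi)) := by
          rw [← Real.exp_add]; congr 1; ring
        rw [← h6, mul_pow]; ring
      _ ≤ _ := by gcongr)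
  calc q (ee n z • Fn n x) ≤ C * (C2 * M * (1 / 2) ^ n.natAbs) := h3
    _ = _ := by ring

lemma loc_hasSum (x : XT T) (z : ℂ) :
    HasSum (fun n : ℤ => ee n z • Fn n x) (sec T z ((x : C(ℂ, F)) z)) := by
  have hs := loc_summable x z
  have h : ∑' n : ℤ, ee n z • Fn n x = sec T z ((x : C(ℂ, F)) z) := by
    apply Subtype.ext
    ext ζ
    have hc : Continuous fun g : XT T => (g : C(ℂ, F)) ζ :=
      (continuous_eval_const ζ).comp continuous_subtype_val
    let ev : XT T →+ F :=
      { toFun := fun g => (g : C(ℂ, F)) ζ, map_zero' := rfl, map_add' := fun _ _ => rfl }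
    have h1 := hs.hasSum.map ev hc
    exact h1.unique (Fn_hasSum x ζ z)
  rw [← h]
  exact hs.hasSum

end Loc

section NF

variable {F : Type*} [NormedAddCommGroup F] [NormedSpace ℂ F] [CompleteSpace F]
variable {T : (F →L[ℂ] F)ˣ}
variable {E : Type*} [AddCommGroup E] [Module ℂ E] [UniformSpace E] [IsPolynormedSpace E]

/-- Evaluation on holomorphic maps. -/
def evE (w : U0) : Hol U0 E →L[ℂ] E where
  toFun g := (g : C(U0, E)) w
  map_add' _ _ := rfl
  map_smul' _ _ := rfl
  cont := (continuous_eval_const w).comp continuous_subtype_val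

/-- Evaluation on sections. -/
def evX (T : (F →L[ℂ] F)ˣ) (z : ℂ) : XT T →L[ℂ] F where
  toFun g := (g : C(ℂ, F)) z
  map_add' _ _ := rfl
  map_smul' _ _ := rfl
  cont := (continuous_eval_const z).comp continuous_subtype_val

/-- Constant maps. -/
def cstE : E →L[ℂ] Hol U0 E where
  toFun a := ⟨ContinuousMap.const U0 a, IsHolo.const a⟩
  map_add' _ _ := rfl
  map_smul' _ _ := rfl
  cont := Continuous.subtype_mk ContinuousMap.const'.continuous _

variable (e : XT T ≃L[OO U0] Hol U0 E)

/-- The isomorphism as a complex linear map. -/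
def Psi : XT T →L[ℂ] Hol U0 E where
  toFun := e
  map_add' := map_add e
  map_smul' c x := by
    rw [RingHom.id_apply, ← algebraMap_smul (OO U0) c x, map_smul, algebraMap_smul]
  cont := e.continuous

/-- The inverse isomorphism as a complex linear map. -/
def Phi : Hol U0 E →L[ℂ] XT T where
  toFun := e.symm
  map_add' := map_add e.symm
  map_smul' c x := by
    rw [RingHom.id_apply, ← algebraMap_smul (OO U0) c x, map_smul, algebraMap_smul]
  cont := e.symm.continuous

lemma Psi_smul (h : OO U0) (x : XT T) : Psi e (h • x) = h • Psi e x := map_smul e h x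
lemma Phi_smul (h : OO U0) (x : Hol U0 E) : Phi e (h • x) = h • Phi e x := map_smul e.symm h x
lemma Phi_Psi (x : XT T) : Phi e (Psi e x) = x := e.symm_apply_apply x
lemma Psi_Phi (x : Hol U0 E) : Psi e (Phi e x) = x := e.apply_symm_apply x

/-- The fibre map from `F` to `E`. -/
def LL (z : ℂ) : F →L[ℂ] E := (evE (expo z)).comp ((Psi e).comp (secL T z))

/-- The fibre map from `E` to `F`. -/
def GG (z : ℂ) : E →L[ℂ] F := (evX T z).comp ((Phi e).comp cstE)

lemma psi_loc (x : XT T) (z : ℂ) : evE (expo z) (Psi e x) = LL e z (evX T z x) := by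
  have h1 := ((evE (E := E) (expo z)).comp (Psi e)).hasSum (repro x)
  have h2 := ((evE (E := E) (expo z)).comp (Psi e)).hasSum (loc_hasSum x z)
  have h3 : ∀ n : ℤ, ((evE (E := E) (expo z)).comp (Psi e)) (wz n • Fn n x)
      = ((evE (E := E) (expo z)).comp (Psi e)) (ee n z • Fn n x) := by
    intro n
    show evE (expo z) (Psi e (wz n • Fn n x)) = evE (expo z) (Psi e (ee n z • Fn n x))
    rw [Psi_smul, map_smul (Psi e), map_smul (evE (E := E) (expo z))]
    show (wz n : C(U0, ℂ)) (expo z) • (evE (expo z) (Psi e (Fn n x))) = _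
    rw [wz_expo]
  have h4 : (fun n : ℤ => ((evE (E := E) (expo z)).comp (Psi e)) (wz n • Fn n x))
      = (fun n : ℤ => ((evE (E := E) (expo z)).comp (Psi e)) (ee n z • Fn n x)) := funext h3
  have h5 : HasSum (fun n : ℤ => ((evE (E := E) (expo z)).comp (Psi e)) (ee n z • Fn n x))
      (((evE (E := E) (expo z)).comp (Psi e)) x) := by
    rw [← h4]
    exact h1
  exact h5.unique h2

lemma LL_GG (z : ℂ) (a : E) : LL e z (GG e z a) = a := by
  have h := psi_loc e (Phi e (cstE a)) z
  rw [Psi_Phi] at h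
  exact h.symm

omit [CompleteSpace F] in
lemma holo_comp {E' : Type*} [AddCommGroup E'] [Module ℂ E'] [TopologicalSpace E']
    {E'' : Type*} [AddCommGroup E''] [Module ℂ E''] [TopologicalSpace E'']
    {U : Set ℂ} (f : C(U, E')) (hf : IsHolo f) (A : E' →L[ℂ] E'') :
    IsHolo ((A : C(E', E'')).comp f) := by
  intro z
  obtain ⟨d, hd⟩ := hf z
  refine ⟨A d, ((A.continuous.tendsto d).comp hd).congr fun y => ?_⟩
  simp only [Function.comp_apply, map_smul, map_sub, ContinuousMap.comp_apply]
  rfl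

lemma phi_loc (g : Hol U0 E) (z : ℂ) : evX T z (Phi e g) = GG e z (evE (expo z) g) := by
  set k : C(U0, F) := (GG e z : C(E, F)).comp (g : C(U0, E)) with hk
  have hkh : IsHolo k := holo_comp (g : C(U0, E)) g.2 (GG e z)
  have h1 := laurent k hkh
  -- push forward to E
  let post : C(U0, F) →+ C(U0, E) :=
    { toFun := fun u => (LL e z : C(F, E)).comp u
      map_zero' := by ext w; exact map_zero (LL e z)
      map_add' := fun u v => by ext w; exact map_add (LL e z) _ _ }
  have hpost : Continuous post := ContinuousMap.continuous_postcomp _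
  have h2 := h1.map post hpost
  have h3 : post k = (g : C(U0, E)) := by
    ext w
    exact LL_GG e z ((g : C(U0, E)) w)
  rw [h3] at h2
  have h4 : HasSum (fun n : ℤ => wz n • cstE (LL e z (lc k n))) g := by
    have hi : Topology.IsInducing ((Hol U0 E).subtype : Hol U0 E → C(U0, E)) :=
      Topology.IsInducing.subtypeVal
    rw [← hi.hasSum_iff]
    refine h2.congr_fun ?_
    intro n
    ext w
    show (wz n : C(U0, ℂ)) w • LL e z (lc k n) = LL e z ((wz n : C(U0, ℂ)) w • lc k n)
    rw [map_smul]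
  have h5 := ((evX T z).comp (Phi e)).hasSum h4
  have h6 : ∀ n : ℤ, ((evX T z).comp (Phi e)) (wz n • cstE (LL e z (lc k n)))
      = ee n z • GG e z (LL e z (lc k n)) := by
    intro n
    show evX T z (Phi e (wz n • cstE (LL e z (lc k n)))) = _
    rw [Phi_smul]
    show (wz n : C(U0, ℂ)) (expo z) • (evX T z (Phi e (cstE (LL e z (lc k n))))) = _
    rw [wz_expo]
    rfl
  -- evaluation
  let ev : C(U0, F) →+ F :=
    { toFun := fun u => GG e z (LL e z (u (expo z)))
      map_zero' := by
        show GG e z (LL e z 0) = 0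
        rw [map_zero, map_zero]
      map_add' := fun u v => by
        show GG e z (LL e z (u (expo z) + v (expo z))) = _
        rw [map_add, map_add] }
  have hev : Continuous ev :=
    (GG e z).continuous.comp ((LL e z).continuous.comp (continuous_eval_const (expo z)))
  have h7 := h1.map ev hev
  have h8 : ∀ n : ℤ, ev ((wz n : C(U0, ℂ)) • ContinuousMap.const U0 (lc k n))
      = ee n z • GG e z (LL e z (lc k n)) := by
    intro n
    show GG e z (LL e z ((wz n : C(U0, ℂ)) (expo z) • lc k n)) = _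
    rw [wz_expo, map_smul, map_smul]
  have h9 : ev k = GG e z (evE (expo z) g) := by
    show GG e z (LL e z (GG e z ((g : C(U0, E)) (expo z)))) = _
    rw [LL_GG]
    rfl
  have h5' : HasSum (fun n : ℤ => ee n z • GG e z (LL e z (lc k n))) (evX T z (Phi e g)) := by
    have : (fun n : ℤ => ee n z • GG e z (LL e z (lc k n)))
      = fun n : ℤ => ((evX T z).comp (Phi e)) (wz n • cstE (LL e z (lc k n))) := (funext h6).symm
    rw [this]
    exact h5
  have h7' : HasSum (fun n : ℤ => ee n z • GG e z (LL e z (lc k n))) (ev k) := by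
    have : (fun n : ℤ => ee n z • GG e z (LL e z (lc k n)))
      = ev ∘ fun n : ℤ => ((wz n : C(U0, ℂ)) • ContinuousMap.const U0 (lc k n)) := (funext h8).symm
    rw [this]
    exact h7
  rw [← h9]
  exact h5'.unique h7'

lemma GG_LL (z : ℂ) (v : F) : GG e z (LL e z v) = v := by
  have h := phi_loc e (Psi e (secL T z v)) z
  rw [Phi_Psi] at h
  have h1 : evX T z (secL T z v) = v := by
    show Th T (z - z) v = v
    rw [sub_self, Th_zero]
    rfl
  rw [h1] at h
  exact h.symm

/-- The path of automorphisms of the fibre. -/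
def MM (z : ℂ) : (F →L[ℂ] F)ˣ where
  val := (GG e z).comp (LL e 0)
  inv := (GG e 0).comp (LL e z)
  val_inv := by
    ext v
    show GG e z (LL e 0 (GG e 0 (LL e z v))) = v
    rw [LL_GG, GG_LL]
  inv_val := by
    ext v
    show GG e 0 (LL e z (GG e z (LL e 0 v))) = v
    rw [LL_GG, GG_LL]

lemma MM_zero : ((MM e 0 : (F →L[ℂ] F)ˣ) : F →L[ℂ] F) = 1 := by
  ext v
  exact GG_LL e 0 v

lemma MM_one : ((MM e 1 : (F →L[ℂ] F)ˣ) : F →L[ℂ] F) = (T : F →L[ℂ] F) := by
  ext v
  show ((Phi e (cstE (LL e 0 v)) : XT T) : C(ℂ, F)) 1 = (T : F →L[ℂ] F) v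
  have h := (Phi e (cstE (LL e 0 v)) : XT T).2.2 0
  rw [zero_add] at h
  rw [h]
  congr 1
  exact GG_LL e 0 v

lemma MM_cont : Continuous fun z : ℂ => ((MM e z : (F →L[ℂ] F)ˣ) : F →L[ℂ] F) := by
  rw [continuous_iff_continuousAt]
  intro c
  -- local bound
  set X : F →L[ℂ] XT T := (Phi e).comp (cstE.comp (LL e 0)) with hX
  have hK : IsCompact (Metric.closedBall c 1) := isCompact_closedBall c 1
  have hN : {f : XT T | ∀ x ∈ Metric.closedBall c 1, ‖(f : C(ℂ, F)) x‖ < 1} ∈ 𝓝 (0 : XT T) := by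
    have h1 : {f : C(ℂ, F) | ∀ x ∈ Metric.closedBall c 1, ‖f x‖ < 1} ∈
        𝓝 (((0 : XT T) : XT T) : C(ℂ, F)) := sup_nhds (B := F) hK one_pos
    exact continuous_subtype_val.continuousAt.preimage_mem_nhds h1
  have hN2 : X ⁻¹' {f : XT T | ∀ x ∈ Metric.closedBall c 1, ‖(f : C(ℂ, F)) x‖ < 1} ∈ 𝓝 (0 : F) :=
    X.continuous.continuousAt.preimage_mem_nhds (by rw [map_zero]; exact hN)
  obtain ⟨δ, hδ, hδN⟩ := Metric.mem_nhds_iff.1 hN2
  have hb : ∀ v : F, ∀ z ∈ Metric.closedBall c 1, ‖((X v : XT T) : C(ℂ, F)) z‖ ≤ 2 / δ * ‖v‖ := by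
    intro v z hz
    by_cases hv : v = 0
    · subst hv
      rw [map_zero]
      simp
    · have hv0 : 0 < ‖v‖ := norm_pos_iff.2 hv
      have h1 : ((δ / (2 * ‖v‖) : ℝ) : ℂ) • v ∈ Metric.ball (0 : F) δ := by
        rw [Metric.mem_ball, dist_zero_right, norm_smul, Complex.norm_real,
          Real.norm_of_nonneg (by positivity)]
        have : δ / (2 * ‖v‖) * ‖v‖ = δ / 2 := by field_simp
        rw [this]
        linarith
      have h2 := hδN h1 z hz
      have h3 : ((X (((δ / (2 * ‖v‖) : ℝ) : ℂ) • v) : XT T) : C(ℂ, F)) z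
          = ((δ / (2 * ‖v‖) : ℝ) : ℂ) • ((X v : XT T) : C(ℂ, F)) z := by
        rw [map_smul]; rfl
      rw [h3, norm_smul, Complex.norm_real, Real.norm_of_nonneg (by positivity)] at h2
      rw [div_mul_eq_mul_div, div_lt_one (by positivity)] at h2
      rw [div_mul_eq_mul_div, le_div_iff₀ hδ]
      linarith
  have hlip : ∀ z ∈ Metric.ball c 1, ‖((MM e z : (F →L[ℂ] F)ˣ) : F →L[ℂ] F) -
      ((MM e c : (F →L[ℂ] F)ˣ) : F →L[ℂ] F)‖ ≤ 4 / δ * dist z c := by
    intro z hz
    refine ContinuousLinearMap.opNorm_le_bound _ (by positivity) fun v => ?_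
    show ‖((X v : XT T) : C(ℂ, F)) z - ((X v : XT T) : C(ℂ, F)) c‖ ≤ _
    rw [← dist_eq_norm]
    have h1 := Complex.dist_le_div_mul_dist_of_mapsTo_ball
      (f := fun w => ((X v : XT T) : C(ℂ, F)) w) (c := c) (R₁ := 1) (R₂ := 4 / δ * ‖v‖) (z := z)
      ((X v : XT T).2.1.differentiableOn) (fun w hw => by
        rw [Metric.mem_closedBall, dist_eq_norm]
        have h2 := hb v w (Metric.ball_subset_closedBall hw)
        have h3 := hb v c (Metric.mem_closedBall_self zero_le_one)
        calc ‖((X v : XT T) : C(ℂ, F)) w - ((X v : XT T) : C(ℂ, F)) c‖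
            ≤ ‖((X v : XT T) : C(ℂ, F)) w‖ + ‖((X v : XT T) : C(ℂ, F)) c‖ := norm_sub_le _ _
          _ ≤ 2 / δ * ‖v‖ + 2 / δ * ‖v‖ := add_le_add h2 h3
          _ = 4 / δ * ‖v‖ := by ring) hz
    calc _ ≤ 4 / δ * ‖v‖ / 1 * dist z c := h1
      _ = 4 / δ * dist z c * ‖v‖ := by ring
  rw [ContinuousAt, tendsto_iff_norm_sub_tendsto_zero]
  have h0 : Tendsto (fun z : ℂ => 4 / δ * dist z c) (𝓝 c) (𝓝 0) := by
    have : Continuous fun z : ℂ => 4 / δ * dist z c := by fun_prop
    have h := this.tendsto c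
    simpa using h
  refine squeeze_zero' (Eventually.of_forall fun z => norm_nonneg _) ?_ h0
  filter_upwards [Metric.ball_mem_nhds c one_pos] with z hz
  exact hlip z hz

end NF

end

end Pool.Agent.Helper148.PM
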