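import Mathlib

set_option autoImplicit false

namespace Pool.Agent.Helper148.PM

open scoped ENNReal Topology
open Filter

noncomputable section

variable {H : Type*} [NormedAddCommGroup H] [NormedSpace ℂ H] [CompleteSpace H]
variable {G : Type*} [NormedAddCommGroup G] [NormedSpace ℂ G] [CompleteSpace G]

/-- An injective operator of the form invertible plus compact is surjective. -/
lemma surj_of_inj (S : H →L[ℂ] H) (hinj : Function.Injective S) (V : (H →L[ℂ] H)ˣ)
    (hK : IsCompactOperator (S - (V : H →L[ℂ] H))) : Function.Surjective S := by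
  set W : H →L[ℂ] H := ((V⁻¹ : (H →L[ℂ] H)ˣ) : H →L[ℂ] H) with hW
  have hc : IsCompactOperator (W * (S - (V : H →L[ℂ] H))) := hK.clm_comp W
  have he : W * (S - (V : H →L[ℂ] H)) = W * S - 1 := by
    rw [mul_sub, hW, Units.inv_mul]
  rw [he] at hc
  rcases hc.hasEigenvalue_or_mem_resolventSet (μ := (-1 : ℂ)) (by norm_num) with h | h
  · exfalso
    obtain ⟨x, hx⟩ := h.exists_hasEigenvector
    have h1 := hx.apply_eq_smul
    have h2 : W (S x) - x = (-1 : ℂ) • x := h1
    have h3 : W (S x) = 0 := by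
      have : W (S x) = (W (S x) - x) + x := by abel
      rw [this, h2, neg_one_smul]
      abel
    have h4 : S x = 0 := by
      have h5 : (V : H →L[ℂ] H) (W (S x)) = S x := by
        have : ((V : H →L[ℂ] H) * W) (S x) = S x := by rw [hW, Units.mul_inv]; rfl
        exact this
      rw [← h5, h3, map_zero]
    exact hx.2 (hinj (h4.trans (map_zero S).symm))
  · rw [spectrum.mem_resolventSet_iff] at h
    have h1 : (algebraMap ℂ (H →L[ℂ] H)) (-1) - (W * S - 1) = -(W * S) := by
      rw [map_neg, map_one]; abel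
    rw [h1, IsUnit.neg_iff] at h
    have h2 : IsUnit S := by
      have : S = (V : H →L[ℂ] H) * (W * S) := by rw [← mul_assoc, hW, Units.mul_inv, one_mul]
      rw [this]
      exact V.isUnit.mul h
    exact (ContinuousLinearMap.isUnit_iff_bijective.1 h2).2

/-- The upper left block of an operator on a product. -/
def blk (M : (H × G) →L[ℂ] (H × G)) : H →L[ℂ] H :=
  (ContinuousLinearMap.fst ℂ H G).comp (M.comp (ContinuousLinearMap.inl ℂ H G))

omit [CompleteSpace H] [CompleteSpace G] in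
lemma blk_continuous : Continuous (blk : ((H × G) →L[ℂ] (H × G)) → (H →L[ℂ] H)) := by
  unfold blk
  fun_prop

omit [CompleteSpace H] [CompleteSpace G] in
lemma blk_one : blk (1 : (H × G) →L[ℂ] (H × G)) = 1 := by
  ext x; rfl

omit [CompleteSpace H] [CompleteSpace G] in
lemma blk_mul (hcomp : ∀ b : H →L[ℂ] G, IsCompactOperator b) (M N : (H × G) →L[ℂ] (H × G)) :
    IsCompactOperator (blk (M * N) - blk M * blk N) := by
  have h : blk (M * N) - blk M * blk N =
      ((ContinuousLinearMap.fst ℂ H G).comp (M.comp (ContinuousLinearMap.inr ℂ H G))).comp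
        ((ContinuousLinearMap.snd ℂ H G).comp (N.comp (ContinuousLinearMap.inl ℂ H G))) := by
    ext x
    show (M (N (x, 0))).1 - (M ((N (x, 0)).1, 0)).1 = (M (0, (N (x, 0)).2)).1
    have h1 : N (x, 0) = ((N (x, 0)).1, (0 : G)) + ((0 : H), (N (x, 0)).2) := by ext <;> simp
    have h2 : M (N (x, 0)) = M ((N (x, 0)).1, (0 : G)) + M ((0 : H), (N (x, 0)).2) := by
      rw [← map_add, ← h1]
    rw [h2, Prod.fst_add]
    abel
  rw [h]
  exact (hcomp _).clm_comp
    ((ContinuousLinearMap.fst ℂ H G).comp (M.comp (ContinuousLinearMap.inr ℂ H G)))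

/-- Invertible modulo compact operators in the strong sense. -/
def InvC (A : H →L[ℂ] H) : Prop :=
  ∃ V : (H →L[ℂ] H)ˣ, IsCompactOperator (A - (V : H →L[ℂ] H))

omit [CompleteSpace H] in
lemma InvC.congr {A B : H →L[ℂ] H} (h : IsCompactOperator (A - B)) (hB : InvC B) : InvC A := by
  obtain ⟨V, hV⟩ := hB
  refine ⟨V, ?_⟩
  have := h.add hV
  have h2 : (⇑(A - B) + ⇑(B - (V : H →L[ℂ] H))) = ⇑(A - (V : H →L[ℂ] H)) := by
    ext x; simp
  rwa [h2] at this

omit [CompleteSpace H] in
lemma InvC.unit_mul {A : H →L[ℂ] H} (D : (H →L[ℂ] H)ˣ) (hA : InvC A) :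
    InvC ((D : H →L[ℂ] H) * A) := by
  obtain ⟨V, hV⟩ := hA
  refine ⟨D * V, ?_⟩
  have h : (D : H →L[ℂ] H) * A - ((D * V : (H →L[ℂ] H)ˣ) : H →L[ℂ] H)
      = (D : H →L[ℂ] H) * (A - (V : H →L[ℂ] H)) := by
    rw [mul_sub, Units.val_mul]
  rw [h]
  exact hV.clm_comp _

omit [CompleteSpace H] in
lemma IsCompactOperator.sub_comm' {A B : H →L[ℂ] H} (h : IsCompactOperator (A - B)) :
    IsCompactOperator (B - A) := by
  have := h.neg
  have h2 : -⇑(A - B) = ⇑(B - A) := by ext x; simp
  rwa [h2] at this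

/-- The path lemma. -/
theorem path_lemma (hcomp : ∀ b : H →L[ℂ] G, IsCompactOperator b)
    (M : ℝ → ((H × G) →L[ℂ] (H × G))ˣ) (hM : Continuous fun t => (M t : (H × G) →L[ℂ] (H × G)))
    (h0 : InvC (blk (M 0 : (H × G) →L[ℂ] (H × G)))) :
    InvC (blk (M 1 : (H × G) →L[ℂ] (H × G))) := by
  have hMc : Continuous M := by
    rw [Units.isOpenEmbedding_val.isInducing.continuous_iff]
    exact hM
  set P : ℝ → Prop := fun t => InvC (blk (M t : (H × G) →L[ℂ] (H × G))) with hP
  have key : ∀ t₀, ∀ᶠ t in 𝓝 t₀, P t = P t₀ := by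
    intro t₀
    -- D t = blk (M t * (M t₀)⁻¹) is a unit near t₀
    have hD : Continuous fun t => blk ((M t * (M t₀)⁻¹ : ((H × G) →L[ℂ] (H × G))ˣ) :
        (H × G) →L[ℂ] (H × G)) := by
      refine blk_continuous.comp ?_
      simp only [Units.val_mul]
      exact hM.mul continuous_const
    have hD0 : blk ((M t₀ * (M t₀)⁻¹ : ((H × G) →L[ℂ] (H × G))ˣ) : (H × G) →L[ℂ] (H × G)) = 1 := by
      rw [mul_inv_cancel, Units.val_one, blk_one]
    have hu : ∀ᶠ t in 𝓝 t₀, IsUnit (blk ((M t * (M t₀)⁻¹ : ((H × G) →L[ℂ] (H × G))ˣ) :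
        (H × G) →L[ℂ] (H × G))) := by
      have := hD.continuousAt (x := t₀)
      refine this.eventually ?_
      show {A : H →L[ℂ] H | IsUnit A} ∈ 𝓝 (blk ((M t₀ * (M t₀)⁻¹ : ((H × G) →L[ℂ] (H × G))ˣ) :
        (H × G) →L[ℂ] (H × G)))
      rw [hD0]
      exact Units.isOpen.mem_nhds isUnit_one
    filter_upwards [hu] with t ht
    obtain ⟨D, hDt⟩ := ht
    have hmul : IsCompactOperator (blk (M t : (H × G) →L[ℂ] (H × G)) -
        (D : H →L[ℂ] H) * blk (M t₀ : (H × G) →L[ℂ] (H × G))) := by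
      have := blk_mul hcomp ((M t * (M t₀)⁻¹ : ((H × G) →L[ℂ] (H × G))ˣ) : (H × G) →L[ℂ] (H × G))
        (M t₀ : (H × G) →L[ℂ] (H × G))
      rw [← Units.val_mul, inv_mul_cancel_right] at this
      rw [hDt]
      exact this
    apply propext
    constructor
    · intro h
      have h1 : InvC ((D : H →L[ℂ] H) * blk (M t₀ : (H × G) →L[ℂ] (H × G))) :=
        InvC.congr (IsCompactOperator.sub_comm' hmul) h
      have h2 := h1.unit_mul D⁻¹
      rwa [← mul_assoc, Units.inv_mul, one_mul] at h2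
    · intro h
      exact InvC.congr hmul (h.unit_mul D)
  have hloc : IsLocallyConstant P := (IsLocallyConstant.iff_eventually_eq P).2 key
  have := hloc.apply_eq_of_isPreconnected isPreconnected_univ (Set.mem_univ (0:ℝ)) (Set.mem_univ 1)
  have h1 : P 0 := h0
  rw [this] at h1
  exact h1

end

end Pool.Agent.Helper148.PM
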