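import Mathlib

set_option autoImplicit false

namespace Pool.Agent.Helper148.PM

open scoped ENNReal Topology
open Filter

noncomputable section

section Pitt

variable {H : Type*} [NormedAddCommGroup H] [InnerProductSpace ℂ H] [CompleteSpace H]

lemma parallelogram_dual (φ ψ : H →L[ℂ] ℂ) :
    ‖φ + ψ‖ ^ 2 + ‖φ - ψ‖ ^ 2 = 2 * (‖φ‖ ^ 2 + ‖ψ‖ ^ 2) := by
  have h := parallelogram_law_with_norm ℂ ((InnerProductSpace.toDual ℂ H).symm φ)
    ((InnerProductSpace.toDual ℂ H).symm ψ)
  rw [← map_add, ← map_sub] at h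
  simp only [LinearIsometryEquiv.norm_map] at h
  nlinarith [h]

lemma exists_sign (φ ψ : H →L[ℂ] ℂ) :
    ∃ s : ℂ, ‖s‖ = 1 ∧ ‖φ‖ ^ 2 + ‖ψ‖ ^ 2 ≤ ‖φ + s • ψ‖ ^ 2 := by
  have h := parallelogram_dual φ ψ
  by_cases h1 : ‖φ‖ ^ 2 + ‖ψ‖ ^ 2 ≤ ‖φ + ψ‖ ^ 2
  · exact ⟨1, by simp, by simpa using h1⟩
  · refine ⟨-1, by simp, ?_⟩
    have : φ + (-1 : ℂ) • ψ = φ - ψ := by
      ext x
      show φ x + (-1 : ℂ) * ψ x = φ x - ψ x
      ring
    rw [this]
    linarith [not_le.1 h1]

variable (b : H →L[ℂ] lp (fun _ : ℕ => ℂ) 1)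

/-- The coordinate functionals of an operator into summable sequences. -/
def cf (i : ℕ) : H →L[ℂ] ℂ :=
  LinearMap.mkContinuous
    { toFun := fun x => (b x) i
      map_add' := by intro x y; rw [map_add]; rfl
      map_smul' := by intro c x; rw [map_smul]; rfl } ‖b‖ (by
    intro x
    exact (lp.norm_apply_le_norm one_ne_zero (b x) i).trans (b.le_opNorm x))

omit [CompleteSpace H] in
@[simp] lemma cf_apply (i : ℕ) (x : H) : cf b i x = (b x) i := rfl

omit [CompleteSpace H] in
lemma l1_summable (x : H) : Summable fun i => ‖cf b i x‖ := by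
  have := (lp.memℓp (b x)).summable (p := 1) (by norm_num)
  simpa using this

omit [CompleteSpace H] in
lemma l1_norm (x : H) : ‖b x‖ = ∑' i, ‖cf b i x‖ := by
  have := lp.norm_rpow_eq_tsum (p := 1) (by norm_num) (b x)
  simpa using this

omit [CompleteSpace H] in
lemma sum_bound (s : Finset ℕ) (e : ℕ → ℂ) (he : ∀ i, ‖e i‖ ≤ 1) :
    ‖∑ i ∈ s, e i • cf b i‖ ≤ ‖b‖ := by
  refine ContinuousLinearMap.opNorm_le_bound _ (norm_nonneg _) fun x => ?_
  have h1 : ‖(∑ i ∈ s, e i • cf b i) x‖ ≤ ∑ i ∈ s, ‖cf b i x‖ := by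
    rw [_root_.sum_apply]
    refine (norm_sum_le _ _).trans (Finset.sum_le_sum fun i _ => ?_)
    rw [_root_.smul_apply, norm_smul]
    exact mul_le_of_le_one_left (norm_nonneg _) (he i)
  refine h1.trans (((l1_summable b x).sum_le_tsum s fun i _ => norm_nonneg _).trans ?_)
  rw [← l1_norm]
  exact b.le_opNorm x

/-- Truncations of `b`. -/
def trunc (n : ℕ) : H →L[ℂ] lp (fun _ : ℕ => ℂ) 1 :=
  ∑ i ∈ Finset.range n, (cf b i).smulRight (lp.single 1 i (1 : ℂ))

omit [CompleteSpace H] in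
lemma trunc_compact (n : ℕ) : IsCompactOperator (trunc b n) := by
  unfold trunc
  induction n with
  | zero => simpa using isCompactOperator_zero
  | succ n ih =>
    rw [Finset.sum_range_succ]
    refine IsCompactOperator.add ih ?_
    have h1 : IsCompactOperator (cf b n) := isCompactOperator_of_locallyCompactSpace_dom (cf b n)
    have := h1.clm_comp (ContinuousLinearMap.toSpanSingleton ℂ
      (lp.single 1 n (1 : ℂ) : lp (fun _ : ℕ => ℂ) 1))
    exact this

omit [CompleteSpace H] in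
lemma trunc_coord (n i : ℕ) (x : H) :
    (trunc b n x) i = if i < n then cf b i x else 0 := by
  unfold trunc
  induction n with
  | zero => simp
  | succ n ih =>
    rw [Finset.sum_range_succ, _root_.add_apply, lp.coeFn_add, Pi.add_apply, ih]
    have h2 : (((cf b n).smulRight (lp.single 1 n (1 : ℂ) : lp (fun _ : ℕ => ℂ) 1)) x) i
        = if i = n then cf b n x else 0 := by
      show (cf b n x) * (lp.single 1 n (1 : ℂ) : lp (fun _ : ℕ => ℂ) 1) i = _
      rw [lp.single_apply]
      by_cases h : i = n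
      · subst h; simp
      · simp [h]
    rw [h2]
    rcases lt_trichotomy i n with h | h | h
    · simp [h, h.ne, Nat.lt_succ_of_lt h]
    · simp [h]
    · have : ¬ i < n := by omega
      have h3 : ¬ i < n + 1 := by omega
      simp [this, h3, h.ne']

omit [CompleteSpace H] in
lemma tail_norm (n : ℕ) (x : H) :
    ‖(b - trunc b n) x‖ = ∑' i, ‖if i < n then (0 : ℂ) else cf b i x‖ := by
  have := lp.norm_rpow_eq_tsum (p := 1) (by norm_num) ((b - trunc b n) x)
  simp only [ENNReal.toReal_one, Real.rpow_one] at this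
  rw [this]
  refine tsum_congr fun i => ?_
  have h : ((b - trunc b n) x) i = (b x) i - (trunc b n x) i := rfl
  rw [h, trunc_coord]
  split_ifs <;> simp

lemma exists_block (n : ℕ) (δ : ℝ) (hδ : 0 < δ) (h : δ < ‖b - trunc b n‖) :
    ∃ (m : ℕ) (u : ℕ → ℂ), (∀ i, ‖u i‖ ≤ 1) ∧ δ ≤ ‖∑ i ∈ Finset.Ico n m, u i • cf b i‖ := by
  obtain ⟨x, hx⟩ : ∃ x, δ * ‖x‖ < ‖(b - trunc b n) x‖ := by
    by_contra hcon
    push Not at hcon
    exact absurd (ContinuousLinearMap.opNorm_le_bound _ hδ.le hcon) (not_le.2 h)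
  rw [tail_norm] at hx
  have hs : Summable fun i => ‖if i < n then (0 : ℂ) else cf b i x‖ := by
    refine Summable.of_nonneg_of_le (fun _ => norm_nonneg _) (fun i => ?_) (l1_summable b x)
    split_ifs <;> simp
  have ht := hs.hasSum.tendsto_sum_nat
  obtain ⟨m, hm⟩ := (ht.eventually (lt_mem_nhds hx)).exists
  refine ⟨m, fun i => if cf b i x = 0 then 0 else (‖cf b i x‖ : ℂ) / cf b i x, ?_, ?_⟩
  · intro i
    dsimp only
    split_ifs with h0
    · simp
    · rw [norm_div, Complex.norm_real, norm_norm, div_self (norm_ne_zero_iff.2 h0)]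
  · have hxpos : x ≠ 0 := by
      rintro rfl
      simp at hx
    have hx0 : 0 < ‖x‖ := norm_pos_iff.2 hxpos
    set v := ∑ i ∈ Finset.Ico n m,
      (if cf b i x = 0 then (0 : ℂ) else (‖cf b i x‖ : ℂ) / cf b i x) • cf b i with hv
    have hvx : v x = ((∑ i ∈ Finset.range m, ‖if i < n then (0 : ℂ) else cf b i x‖ : ℝ) : ℂ) := by
      rw [hv, _root_.sum_apply]
      push_cast
      have h1 : ∀ i ∈ Finset.Ico n m,
          ((if cf b i x = 0 then (0 : ℂ) else (‖cf b i x‖ : ℂ) / cf b i x) • ⇑(cf b i)) x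
            = ((‖if i < n then (0 : ℂ) else cf b i x‖ : ℝ) : ℂ) := by
        intro i hi
        have hni : ¬ i < n := not_lt.2 (Finset.mem_Ico.1 hi).1
        rw [Pi.smul_apply, if_neg hni, smul_eq_mul]
        by_cases h0 : cf b i x = 0
        · simp [h0]
        · rw [if_neg h0, div_mul_cancel₀ _ h0]
      rw [Finset.sum_congr rfl h1]
      symm
      refine (Finset.sum_subset ?_ ?_).symm
      · intro i hi
        rw [Finset.mem_Ico] at hi
        exact Finset.mem_range.2 hi.2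
      · intro i hi hi'
        rw [Finset.mem_range] at hi
        rw [Finset.mem_Ico] at hi'
        have : i < n := by
          by_contra hcon
          exact hi' ⟨not_lt.1 hcon, hi⟩
        simp [this]
    have h2 : δ * ‖x‖ < ‖v x‖ := by
      rw [hvx, Complex.norm_real, Real.norm_of_nonneg (Finset.sum_nonneg fun _ _ => norm_nonneg _)]
      exact hm
    have h3 := v.le_opNorm x
    exact le_of_mul_le_mul_right (h2.le.trans h3) hx0

lemma grow (δ : ℝ) (hδ : 0 < δ) (h : ∀ N, ∃ n, N ≤ n ∧ δ < ‖b - trunc b n‖) (k : ℕ) :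
    ∃ (s : Finset ℕ) (e : ℕ → ℂ), (∀ i, ‖e i‖ ≤ 1) ∧
      (k : ℝ) * δ ^ 2 ≤ ‖∑ i ∈ s, e i • cf b i‖ ^ 2 := by
  induction k with
  | zero => exact ⟨∅, 0, by simp, by simp⟩
  | succ k ih =>
    obtain ⟨s, e, he, hk⟩ := ih
    obtain ⟨n, hn, hnd⟩ := h (s.sup id + 1)
    obtain ⟨m, u, hu, hum⟩ := exists_block b n δ hδ hnd
    obtain ⟨c, hc, hcs⟩ := exists_sign (∑ i ∈ s, e i • cf b i) (∑ i ∈ Finset.Ico n m, u i • cf b i)
    have hdis : Disjoint s (Finset.Ico n m) := by
      rw [Finset.disjoint_left]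
      intro i hi hi'
      have h1 : i ≤ s.sup id := Finset.le_sup (f := id) hi
      have := (Finset.mem_Ico.1 hi').1
      omega
    refine ⟨s ∪ Finset.Ico n m, fun i => if i ∈ s then e i else c * u i, ?_, ?_⟩
    · intro i
      dsimp only
      split_ifs
      · exact he i
      · rw [norm_mul, hc, one_mul]; exact hu i
    · rw [Finset.sum_union hdis]
      have h1 : ∑ i ∈ s, (if i ∈ s then e i else c * u i) • cf b i = ∑ i ∈ s, e i • cf b i :=
        Finset.sum_congr rfl fun i hi => by rw [if_pos hi]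
      have h2 : ∑ i ∈ Finset.Ico n m, (if i ∈ s then e i else c * u i) • cf b i
          = c • ∑ i ∈ Finset.Ico n m, u i • cf b i := by
        rw [Finset.smul_sum]
        refine Finset.sum_congr rfl fun i hi => ?_
        rw [if_neg (Finset.disjoint_right.1 hdis hi), mul_smul]
      rw [h1, h2]
      refine le_trans ?_ hcs
      have h3 : δ ^ 2 ≤ ‖∑ i ∈ Finset.Ico n m, u i • cf b i‖ ^ 2 := by gcongr
      push_cast
      linarith

/-- Every bounded operator from a Hilbert space into summable sequences is compact. -/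
theorem compact_to_l1 : IsCompactOperator b := by
  have key : Tendsto (fun n => trunc b n) atTop (𝓝 b) := by
    rw [tendsto_iff_norm_sub_tendsto_zero]
    rw [Metric.tendsto_atTop]
    by_contra hcon
    push Not at hcon
    obtain ⟨ε, hε, hN⟩ := hcon
    have h2 : ∀ N, ∃ n, N ≤ n ∧ ε / 2 < ‖b - trunc b n‖ := by
      intro N
      obtain ⟨n, hn, hd⟩ := hN N
      refine ⟨n, hn, ?_⟩
      rw [Real.dist_eq, sub_zero, abs_of_nonneg (norm_nonneg _), norm_sub_rev] at hd
      linarith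
    obtain ⟨k, hk⟩ := exists_nat_gt (‖b‖ ^ 2 / (ε / 2) ^ 2)
    obtain ⟨s, e, he, hs⟩ := grow b (ε / 2) (by positivity) h2 k
    have h3 := sum_bound b s e he
    have h4 : ‖∑ i ∈ s, e i • cf b i‖ ^ 2 ≤ ‖b‖ ^ 2 := by gcongr
    rw [div_lt_iff₀ (by positivity)] at hk
    linarith
  exact isCompactOperator_of_tendsto key (Eventually.of_forall fun n => trunc_compact b n)

end Pitt

end

end Pool.Agent.Helper148.PM
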