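import Mathlib

set_option autoImplicit false

namespace Pool.Agent.Helper148.PM

open scoped ENNReal

noncomputable section

/-- Right shift of a sequence. -/
def shR (f : ℕ → ℂ) : ℕ → ℂ := fun n => Nat.casesOn n 0 f

@[simp] lemma shR_zero (f : ℕ → ℂ) : shR f 0 = 0 := rfl
@[simp] lemma shR_succ (f : ℕ → ℂ) (n : ℕ) : shR f (n + 1) = f n := rfl

/-- Left shift of a sequence. -/
def shL (f : ℕ → ℂ) : ℕ → ℂ := fun n => f (n + 1)

lemma memR {p : ℝ≥0∞} (hp : 0 < p.toReal) {f : ℕ → ℂ} (hf : Memℓp f p) : Memℓp (shR f) p :=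
  memℓp_gen ((summable_nat_add_iff 1).1 (by simpa using hf.summable hp))

lemma memL {p : ℝ≥0∞} (hp : 0 < p.toReal) {f : ℕ → ℂ} (hf : Memℓp f p) : Memℓp (shL f) p :=
  memℓp_gen ((summable_nat_add_iff 1).2 (hf.summable hp))

variable (p : ℝ≥0∞) [Fact (1 ≤ p)]

/-- The right shift on lp. -/
def SR (hp : 0 < p.toReal) : lp (fun _ : ℕ => ℂ) p →L[ℂ] lp (fun _ : ℕ => ℂ) p :=
  LinearMap.mkContinuous
    { toFun := fun f => ⟨shR f, memR hp (lp.memℓp f)⟩
      map_add' := by
        intro f g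
        ext n
        cases n with
        | zero => exact (add_zero (0 : ℂ)).symm
        | succ n => rfl
      map_smul' := by
        intro c f
        ext n
        cases n with
        | zero => exact (mul_zero c).symm
        | succ n => rfl } 1 (by
    intro f
    rw [one_mul]
    refine lp.norm_le_of_tsum_le hp (norm_nonneg _) ?_
    have hs : Summable fun n => ‖shR f n‖ ^ p.toReal := (memR hp (lp.memℓp f)).summable hp
    have h1 : ∑' n, ‖shR f n‖ ^ p.toReal = ‖f‖ ^ p.toReal := by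
      rw [hs.tsum_eq_zero_add, lp.norm_rpow_eq_tsum hp f]
      simp [Real.zero_rpow hp.ne']
    exact h1.le)

/-- The left shift on lp. -/
def SL (hp : 0 < p.toReal) : lp (fun _ : ℕ => ℂ) p →L[ℂ] lp (fun _ : ℕ => ℂ) p :=
  LinearMap.mkContinuous
    { toFun := fun f => ⟨shL f, memL hp (lp.memℓp f)⟩
      map_add' := by
        intro f g
        ext n
        rfl
      map_smul' := by
        intro c f
        ext n
        rfl } 1 (by
    intro f
    rw [one_mul]
    refine lp.norm_le_of_tsum_le hp (norm_nonneg _) ?_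
    have hs : Summable fun n => ‖f n‖ ^ p.toReal := (lp.memℓp f).summable hp
    rw [lp.norm_rpow_eq_tsum hp f, hs.tsum_eq_zero_add]
    have : 0 ≤ ‖f 0‖ ^ p.toReal := by positivity
    simpa [shL] using this)

@[simp] lemma SR_apply_zero (hp : 0 < p.toReal) (f : lp (fun _ : ℕ => ℂ) p) :
    (SR p hp f) 0 = 0 := rfl
@[simp] lemma SR_apply_succ (hp : 0 < p.toReal) (f : lp (fun _ : ℕ => ℂ) p) (n : ℕ) :
    (SR p hp f) (n + 1) = f n := rfl
@[simp] lemma SL_apply (hp : 0 < p.toReal) (f : lp (fun _ : ℕ => ℂ) p) (n : ℕ) :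
    (SL p hp f) n = f (n + 1) := rfl

/-- Coordinate functional on lp. -/
def coordL (n : ℕ) : lp (fun _ : ℕ => ℂ) p →L[ℂ] ℂ :=
  LinearMap.mkContinuous
    { toFun := fun f => f n
      map_add' := by intro f g; rfl
      map_smul' := by intro c f; rfl } 1 (by
    intro f
    rw [one_mul]
    exact lp.norm_apply_le_norm (by
      have := (Fact.out : (1 : ℝ≥0∞) ≤ p)
      exact (lt_of_lt_of_le one_pos this).ne') f n)

@[simp] lemma coordL_apply (n : ℕ) (f : lp (fun _ : ℕ => ℂ) p) : coordL p n f = f n := rfl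

/-- The first fibre space: square summable sequences. -/
abbrev H2 := lp (fun _ : ℕ => ℂ) 2
/-- The second fibre space: summable sequences. -/
abbrev L1 := lp (fun _ : ℕ => ℂ) 1

lemma hp2 : 0 < (2 : ℝ≥0∞).toReal := by norm_num
lemma hp1 : 0 < (1 : ℝ≥0∞).toReal := by norm_num

/-- The bilateral shift on `H2 × L1`. -/
def TT : (H2 × L1) →L[ℂ] (H2 × L1) :=
  ((SR 2 hp2).comp (ContinuousLinearMap.fst ℂ H2 L1) +
    ((coordL 1 0).comp (ContinuousLinearMap.snd ℂ H2 L1)).smulRight (lp.single 2 0 (1 : ℂ))).prod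
  ((SL 1 hp1).comp (ContinuousLinearMap.snd ℂ H2 L1))

/-- Its inverse. -/
def TI : (H2 × L1) →L[ℂ] (H2 × L1) :=
  ((SL 2 hp2).comp (ContinuousLinearMap.fst ℂ H2 L1)).prod
  ((SR 1 hp1).comp (ContinuousLinearMap.snd ℂ H2 L1) +
    ((coordL 2 0).comp (ContinuousLinearMap.fst ℂ H2 L1)).smulRight (lp.single 1 0 (1 : ℂ)))

lemma single_zero_zero : (lp.single p 0 (1 : ℂ) : lp (fun _ : ℕ => ℂ) p) 0 = 1 := by
  simp [lp.single_apply]

lemma single_zero_succ (n : ℕ) : (lp.single p 0 (1 : ℂ) : lp (fun _ : ℕ => ℂ) p) (n + 1) = 0 := by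
  simp [lp.single_apply]

lemma TT_fst (v : H2 × L1) (n : ℕ) :
    (TT v).1 n = (SR 2 hp2 v.1) n + v.2 0 * (lp.single 2 0 (1 : ℂ) : H2) n := rfl
lemma TT_snd (v : H2 × L1) (n : ℕ) : (TT v).2 n = v.2 (n + 1) := rfl
lemma TI_fst (v : H2 × L1) (n : ℕ) : (TI v).1 n = v.1 (n + 1) := rfl
lemma TI_snd (v : H2 × L1) (n : ℕ) :
    (TI v).2 n = (SR 1 hp1 v.2) n + v.1 0 * (lp.single 1 0 (1 : ℂ) : L1) n := rfl

lemma TT_TI (v : H2 × L1) : TT (TI v) = v := by
  refine Prod.ext ?_ ?_
  · ext n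
    cases n with
    | zero => rw [TT_fst, TI_snd, SR_apply_zero, SR_apply_zero, single_zero_zero, single_zero_zero]; ring
    | succ n =>
      rw [TT_fst, SR_apply_succ, single_zero_succ, TI_fst]; ring
  · ext n
    rw [TT_snd, TI_snd, SR_apply_succ, single_zero_succ]; ring

lemma TI_TT (v : H2 × L1) : TI (TT v) = v := by
  refine Prod.ext ?_ ?_
  · ext n
    rw [TI_fst, TT_fst, SR_apply_succ, single_zero_succ]; ring
  · ext n
    cases n with
    | zero => rw [TI_snd, TT_fst, SR_apply_zero, SR_apply_zero, single_zero_zero, single_zero_zero]; ring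
    | succ n =>
      rw [TI_snd, SR_apply_succ, single_zero_succ, TT_snd]; ring

/-- The bilateral shift as a unit. -/
def TU : ((H2 × L1) →L[ℂ] (H2 × L1))ˣ where
  val := TT
  inv := TI
  val_inv := ContinuousLinearMap.ext fun v => TT_TI v
  inv_val := ContinuousLinearMap.ext fun v => TI_TT v

end

end Pool.Agent.Helper148.PM
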